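import Pool.Agent.H84.KEW.Defs

/-!
# Sheaves of families as coproducts of skyscraper sheaves

On a noetherian space the sheaf `(E p B).sheaf` of finitely supported families is the coproduct of
the skyscraper sheaves with values `B i` at `p i`.
-/

open CategoryTheory TopologicalSpace Opposite Limits

universe u

namespace Pool.Agent.H84.KEW

noncomputable section

section one

variable {X : TopCat.{u}} (x : X) [∀ U : Opens X, Decidable (x ∈ U)] (B : AddCommGrpCat.{u})

/-- The value of the skyscraper sheaf at an open set which contains the point. -/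
def toSky {U : Opens X} (h : x ∈ U) : B ≅ (skyscraperSheaf x B).obj.obj (op U) :=
  eqToIso (if_pos h).symm

lemma sky_subsingleton {U : Opens X} (h : x ∉ U) :
    Subsingleton ((skyscraperSheaf x B).obj.obj (op U)) := by
  have h1 : (skyscraperSheaf x B).obj.obj (op U) = terminal AddCommGrpCat.{u} := if_neg h
  rw [h1]
  exact AddCommGrpCat.subsingleton_of_isZero
    (IsZero.of_iso (isZero_zero _) (terminalIsTerminal.uniqueUpToIso HasZeroObject.zeroIsTerminal))

lemma toSky_map {U V : Opens X} (hV : V ≤ U) (h : x ∈ V) :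
    (toSky x B (hV h)).hom ≫ (skyscraperSheaf x B).obj.map (homOfLE hV).op =
      (toSky x B h).hom := by
  have h1 : (skyscraperSheaf x B).obj.map (homOfLE hV).op =
      eqToHom (by
        change (if x ∈ U then B else terminal _) = (if x ∈ V then B else terminal _)
        rw [if_pos h, if_pos (hV h)]) := dif_pos h
  rw [h1]
  exact eqToHom_trans (if_pos (hV h)).symm _

lemma sky_map_inv {U V : Opens X} (hV : V ≤ U) (h : x ∈ V) :
    (skyscraperSheaf x B).obj.map (homOfLE hV).op ≫ (toSky x B h).inv =
      (toSky x B (hV h)).inv := by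
  refine (Iso.comp_inv_eq _).mpr ?_
  refine Eq.trans ?_ (congrArg ((toSky x B (hV h)).inv ≫ ·) (toSky_map x B hV h))
  exact ((toSky x B (hV h)).inv_hom_id_assoc _).symm

end one

section families

variable {X : TopCat.{u}} [NoetherianSpace X] {ι : Type u} (p : ι → X)
  [∀ (i : ι) (U : Opens X), Decidable (p i ∈ U)] (B : ι → AddCommGrpCat.{u})

/-- The `i`-th component of a section. -/
def evE (i : ι) (U : Opens X) : (E p (fun i => B i)).sec U →+ B i :=
  (DFinsupp.evalAddMonoidHom i).comp ((E p (fun i => B i)).sec U).subtype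

open Classical in
/-- The section with only one component. -/
def sgE (i : ι) (U : Opens X) (h : p i ∈ U) : B i →+ (E p (fun i => B i)).sec U :=
  (DFinsupp.singleAddHom (fun i => B i) i).codRestrict _ (fun a j hj => by
    refine (DFinsupp.single_apply (β := fun i => B i)).trans (dif_neg ?_)
    rintro rfl
    exact hj h)

omit [NoetherianSpace X] [∀ (i : ι) (U : Opens X), Decidable (p i ∈ U)] in
open Classical in
lemma sgE_apply (i : ι) (U : Opens X) (h : p i ∈ U) (a : B i) :
    (sgE p B i U h a).1 = DFinsupp.single i a := rfl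

/-- The projection to the skyscraper sheaf at `p i`. -/
def prE (i : ι) : (E p (fun i => B i)).sheaf ⟶ skyscraperSheaf (p i) (B i) :=
  ⟨{ app := fun U => if h : p i ∈ U.unop then
        AddCommGrpCat.ofHom (evE p B i U.unop) ≫ (toSky (p i) (B i) h).hom else 0
     naturality := fun {U V} g => by
      by_cases hV : p i ∈ V.unop
      · have hU : p i ∈ U.unop := (leOfHom g.unop) hV
        rw [dif_pos hV, dif_pos hU]
        have h1 : (toSky (p i) (B i) hU).hom ≫ (skyscraperSheaf (p i) (B i)).obj.map g =
          (toSky (p i) (B i) hV).hom := toSky_map (p i) (B i) (leOfHom g.unop) hV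
        refine Eq.trans ?_ (Category.assoc _ _ _).symm
        refine Eq.trans ?_ (congrArg (AddCommGrpCat.ofHom (evE p B i U.unop) ≫ ·) h1).symm
        refine (Category.assoc _ _ _).symm.trans ?_
        refine congrArg (· ≫ (toSky (p i) (B i) hV).hom) ?_
        refine AddCommGrpCat.hom_ext (AddMonoidHom.ext fun f => ?_)
        exact keep_apply_pos (A := fun i => (B i : Type u)) p _ hV
      · refine AddCommGrpCat.hom_ext (AddMonoidHom.ext fun f => ?_)
        exact (sky_subsingleton (p i) (B i) hV).elim _ _ }⟩

lemma prE_app (i : ι) {U : Opens X} (h : p i ∈ U) :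
    (prE p B i).hom.app (op U) = AddCommGrpCat.ofHom (evE p B i U) ≫ (toSky (p i) (B i) h).hom :=
  dif_pos h

lemma prE_app_inv (i : ι) {U : Opens X} (h : p i ∈ U) :
    (prE p B i).hom.app (op U) ≫ (toSky (p i) (B i) h).inv = AddCommGrpCat.ofHom (evE p B i U) := by
  refine (congrArg (· ≫ (toSky (p i) (B i) h).inv) (prE_app p B i h)).trans ?_
  refine (Category.assoc _ _ _).trans ?_
  refine (congrArg (AddCommGrpCat.ofHom (evE p B i U) ≫ ·) (toSky (p i) (B i) h).hom_inv_id).trans ?_
  exact Category.comp_id _

variable {B}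

omit [NoetherianSpace X] [∀ (i : ι) (U : Opens X), Decidable (p i ∈ U)] in
open Classical in
lemma keep_single_pos {V : Opens X} {i : ι} (hi : p i ∈ V) (a : B i) :
    keep p (fun i => B i) V (DFinsupp.single i a) = DFinsupp.single i a := by
  refine DFinsupp.ext fun j => ?_
  by_cases hj : p j ∈ V
  · exact keep_apply_pos p _ hj
  · rw [keep_apply_neg p _ hj, DFinsupp.single_apply, dif_neg]
    rintro rfl
    exact hj hi

omit [NoetherianSpace X] [∀ (i : ι) (U : Opens X), Decidable (p i ∈ U)] in
open Classical in
lemma keep_single_neg {V : Opens X} {i : ι} (hi : p i ∉ V) (a : B i) :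
    keep p (fun i => B i) V (DFinsupp.single i a) = 0 := by
  refine DFinsupp.ext fun j => ?_
  by_cases hj : p j ∈ V
  · rw [keep_apply_pos p _ hj, DFinsupp.single_apply, dif_neg, DFinsupp.zero_apply]
    rintro rfl
    exact hi hj
  · rw [keep_apply_neg p _ hj, DFinsupp.zero_apply]

open Classical in
/-- The homomorphism of the group of families given by morphisms of the skyscraper sheaves. -/
def sumE {G : Sheaf (Opens.grothendieckTopology X) AddCommGrpCat.{u}}
    (s : ∀ i, skyscraperSheaf (p i) (B i) ⟶ G) (U : Opens X) :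
    (Π₀ i, B i) →+ G.obj.obj (op U) :=
  DFinsupp.liftAddHom (fun i => if h : p i ∈ U then
    ((toSky (p i) (B i) h).hom ≫ (s i).hom.app (op U)).hom else 0)

omit [NoetherianSpace X] in
open Classical in
lemma sumE_single_pos {G : Sheaf (Opens.grothendieckTopology X) AddCommGrpCat.{u}}
    (s : ∀ i, skyscraperSheaf (p i) (B i) ⟶ G) (U : Opens X) {i : ι} (h : p i ∈ U) (a : B i) :
    sumE p s U (DFinsupp.single i a) = (s i).hom.app (op U) ((toSky (p i) (B i) h).hom a) := by
  unfold sumE
  rw [DFinsupp.liftAddHom_apply_single, dif_pos h]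
  rfl

omit [NoetherianSpace X] in
open Classical in
lemma sumE_single_neg {G : Sheaf (Opens.grothendieckTopology X) AddCommGrpCat.{u}}
    (s : ∀ i, skyscraperSheaf (p i) (B i) ⟶ G) (U : Opens X) {i : ι} (h : p i ∉ U) (a : B i) :
    sumE p s U (DFinsupp.single i a) = 0 := by
  unfold sumE
  rw [DFinsupp.liftAddHom_apply_single, dif_neg h]
  rfl

omit [NoetherianSpace X] in
lemma sumE_keep {G : Sheaf (Opens.grothendieckTopology X) AddCommGrpCat.{u}}
    (s : ∀ i, skyscraperSheaf (p i) (B i) ⟶ G) {U V : Opens X} (hV : V ≤ U) (f : Π₀ i, B i) :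
    sumE p s V (keep p (fun i => B i) V f) = G.obj.map (homOfLE hV).op (sumE p s U f) := by
  classical
  have key : (sumE p s V).comp (keep p (fun i => B i) V) =
      (G.obj.map (homOfLE hV).op).hom.comp (sumE p s U) := by
    refine DFinsupp.addHom_ext fun i a => ?_
    change sumE p s V (keep p (fun i => B i) V (DFinsupp.single i a)) =
      G.obj.map (homOfLE hV).op (sumE p s U (DFinsupp.single i a))
    by_cases hi : p i ∈ V
    · rw [keep_single_pos p hi a, sumE_single_pos p s V hi, sumE_single_pos p s U (hV hi)]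
      have h2 := (s i).hom.naturality (homOfLE hV).op
      have h3 := ConcreteCategory.congr_hom h2 ((toSky (p i) (B i) (hV hi)).hom a)
      refine Eq.trans ?_ h3
      have h4 := ConcreteCategory.congr_hom (toSky_map (p i) (B i) hV hi) a
      exact congrArg ((s i).hom.app (op V)) h4.symm
    · rw [keep_single_neg p hi a, map_zero]
      by_cases hU : p i ∈ U
      · rw [sumE_single_pos p s U hU]
        have h2 := (s i).hom.naturality (homOfLE hV).op
        have h3 := ConcreteCategory.congr_hom h2 ((toSky (p i) (B i) hU).hom a)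
        refine Eq.trans ?_ h3
        have h4 : (skyscraperSheaf (p i) (B i)).obj.map (homOfLE hV).op
          ((toSky (p i) (B i) hU).hom a) = 0 := (sky_subsingleton (p i) (B i) hi).elim _ _
        exact ((congrArg ((s i).hom.app (op V)) h4).trans (map_zero _)).symm
      · rw [sumE_single_neg p s U hU, map_zero]
  exact DFunLike.congr_fun key f

/-- The morphism from the sheaf of families given by morphisms of the skyscraper sheaves. -/
def descE {G : Sheaf (Opens.grothendieckTopology X) AddCommGrpCat.{u}}
    (s : ∀ i, skyscraperSheaf (p i) (B i) ⟶ G) : (E p (fun i => B i)).sheaf ⟶ G :=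
  ⟨{ app := fun U => AddCommGrpCat.ofHom ((sumE p s U.unop).comp
        ((E p (fun i => B i)).sec U.unop).subtype)
     naturality := fun {U V} g => by
      refine AddCommGrpCat.hom_ext (AddMonoidHom.ext fun f => ?_)
      exact sumE_keep p s (leOfHom g.unop) f.1 }⟩

lemma descE_app {G : Sheaf (Opens.grothendieckTopology X) AddCommGrpCat.{u}}
    (s : ∀ i, skyscraperSheaf (p i) (B i) ⟶ G) (U : Opens X) (f : (E p (fun i => B i)).sec U) :
    (descE p s).hom.app (op U) f = sumE p s U f.1 := rfl

/-- The inclusion of the skyscraper sheaf at `p i`. -/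
def incE (B : ι → AddCommGrpCat.{u}) (i : ι) :
    skyscraperSheaf (p i) (B i) ⟶ (E p (fun i => B i)).sheaf :=
  ⟨{ app := fun U => if h : p i ∈ U.unop then
        (toSky (p i) (B i) h).inv ≫ AddCommGrpCat.ofHom (sgE p B i U.unop h) else 0
     naturality := fun {U V} g => by
      by_cases hV : p i ∈ V.unop
      · have hU : p i ∈ U.unop := (leOfHom g.unop) hV
        rw [dif_pos hV, dif_pos hU]
        refine (Category.assoc _ _ _).symm.trans ?_
        refine (congrArg (· ≫ AddCommGrpCat.ofHom (sgE p B i V.unop hV))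
          (sky_map_inv (p i) (B i) (leOfHom g.unop) hV)).trans ?_
        refine Eq.trans ?_ (Category.assoc _ _ _).symm
        refine congrArg ((toSky (p i) (B i) hU).inv ≫ ·) ?_
        refine AddCommGrpCat.hom_ext (AddMonoidHom.ext fun a => Subtype.ext ?_)
        exact (keep_single_pos p hV a).symm
      · rw [dif_neg hV]
        refine (comp_zero).trans ?_
        by_cases hU : p i ∈ U.unop
        · rw [dif_pos hU]
          refine Eq.trans ?_ (Category.assoc _ _ _).symm
          refine Eq.trans (comp_zero (f := (toSky (p i) (B i) hU).inv)).symm ?_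
          refine congrArg ((toSky (p i) (B i) hU).inv ≫ ·) ?_
          refine AddCommGrpCat.hom_ext (AddMonoidHom.ext fun a => Subtype.ext ?_)
          exact (keep_single_neg p hV a).symm
        · rw [dif_neg hU]
          exact (zero_comp).symm }⟩

lemma incE_app (B : ι → AddCommGrpCat.{u}) (i : ι) {U : Opens X} (h : p i ∈ U) :
    (incE p B i).hom.app (op U) =
      (toSky (p i) (B i) h).inv ≫ AddCommGrpCat.ofHom (sgE p B i U h) :=
  dif_pos h

lemma incE_descE {G : Sheaf (Opens.grothendieckTopology X) AddCommGrpCat.{u}}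
    (s : ∀ i, skyscraperSheaf (p i) (B i) ⟶ G) (i : ι) : incE p B i ≫ descE p s = s i := by
  classical
  refine Sheaf.hom_ext ?_
  refine NatTrans.ext (funext fun U => ?_)
  refine AddCommGrpCat.hom_ext (AddMonoidHom.ext fun b => ?_)
  change (descE p s).hom.app U ((incE p B i).hom.app U b) = (s i).hom.app U b
  by_cases h : p i ∈ U.unop
  · have h1 : (incE p B i).hom.app U b = sgE p B i U.unop h ((toSky (p i) (B i) h).inv b) :=
      ConcreteCategory.congr_hom (incE_app p B i h) b
    have h2 : (descE p s).hom.app U (sgE p B i U.unop h ((toSky (p i) (B i) h).inv b)) =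
        sumE p s U.unop (DFinsupp.single i ((toSky (p i) (B i) h).inv b)) := rfl
    refine (congrArg ((descE p s).hom.app U) h1).trans (h2.trans ?_)
    rw [sumE_single_pos p s U.unop h]
    refine congrArg ((s i).hom.app U) ?_
    exact ConcreteCategory.congr_hom (toSky (p i) (B i) h).inv_hom_id b
  · have hb : b = 0 := (sky_subsingleton (p i) (B i) h).elim _ _
    rw [hb]
    exact (congrArg ((descE p s).hom.app U) (map_zero _)).trans
      ((map_zero _).trans (map_zero _).symm)

omit [∀ (i : ι) (U : Opens X), Decidable (p i ∈ U)] [NoetherianSpace X] in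
/-- The section over `U` given by a family. -/
def kpE (B : ι → AddCommGrpCat.{u}) (U : Opens X) :
    (Π₀ i, B i) →+ (E p (fun i => B i)).sec U :=
  (keep p (fun i => B i) U).codRestrict _ (fun f _ hi => keep_apply_neg p f hi)

omit [∀ (i : ι) (U : Opens X), Decidable (p i ∈ U)] [NoetherianSpace X] in
lemma kpE_self (U : Opens X) (f : (E p (fun i => B i)).sec U) : kpE p B U f.1 = f := by
  refine Subtype.ext (DFinsupp.ext fun i => ?_)
  by_cases h : p i ∈ U
  · exact keep_apply_pos p _ h
  · exact (keep_apply_neg p _ h).trans (f.2 i h).symm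

lemma hom_ext_incE {G : Sheaf (Opens.grothendieckTopology X) AddCommGrpCat.{u}}
    {m m' : (E p (fun i => B i)).sheaf ⟶ G} (h : ∀ i, incE p B i ≫ m = incE p B i ≫ m') :
    m = m' := by
  classical
  refine Sheaf.hom_ext ?_
  refine NatTrans.ext (funext fun U => ?_)
  refine AddCommGrpCat.hom_ext (AddMonoidHom.ext fun f => ?_)
  have key : (m.hom.app U).hom.comp (kpE p B U.unop) = (m'.hom.app U).hom.comp (kpE p B U.unop) := by
    refine DFinsupp.addHom_ext fun i a => ?_
    change m.hom.app U (kpE p B U.unop (DFinsupp.single i a)) =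
      m'.hom.app U (kpE p B U.unop (DFinsupp.single i a))
    by_cases hi : p i ∈ U.unop
    · have h1 : kpE p B U.unop (DFinsupp.single i a) =
          (incE p B i).hom.app U ((toSky (p i) (B i) hi).hom a) := by
        have h2 : (incE p B i).hom.app U ((toSky (p i) (B i) hi).hom a) =
            sgE p B i U.unop hi ((toSky (p i) (B i) hi).inv ((toSky (p i) (B i) hi).hom a)) :=
          ConcreteCategory.congr_hom (incE_app p B i hi) _
        have h3 : (toSky (p i) (B i) hi).inv ((toSky (p i) (B i) hi).hom a) = a :=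
          ConcreteCategory.congr_hom (toSky (p i) (B i) hi).hom_inv_id a
        refine Eq.trans ?_ h2.symm
        rw [h3]
        exact Subtype.ext (keep_single_pos p hi a)
      rw [h1]
      have h4 := congrArg (fun g => g.hom.app U) (h i)
      exact ConcreteCategory.congr_hom h4 ((toSky (p i) (B i) hi).hom a)
    · have h1 : kpE p B U.unop (DFinsupp.single i a) = 0 :=
        Subtype.ext (keep_single_neg p hi a)
      rw [h1]
      exact (map_zero (m.hom.app U).hom).trans (map_zero (m'.hom.app U).hom).symm
  have h5 := DFunLike.congr_fun key f.1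
  have h6 : kpE p B U.unop f.1 = f := kpE_self p U.unop f
  change m.hom.app U f = m'.hom.app U f
  rw [← h6]
  exact h5

/-- The sheaf of families with the inclusions. -/
def cofanE (B : ι → AddCommGrpCat.{u}) : Cofan (fun i => skyscraperSheaf (p i) (B i)) :=
  Cofan.mk _ (incE p B)

/-- The sheaf of families is the coproduct of the skyscraper sheaves. -/
def isColimitE (B : ι → AddCommGrpCat.{u}) : IsColimit (cofanE p B) :=
  Cofan.IsColimit.mk _ (fun t => descE p (fun i => t.inj i)) (fun _ i => incE_descE p _ i)
    (fun _ _ hm => hom_ext_incE p (fun i => (hm i).trans (incE_descE p _ i).symm))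

/-- The coproduct of the skyscraper sheaves is the sheaf of families. -/
def isoE (B : ι → AddCommGrpCat.{u}) :
    (∐ fun i => skyscraperSheaf (p i) (B i)) ≅ (E p (fun i => B i)).sheaf :=
  (colimit.isColimit _).coconePointUniqueUpToIso (isColimitE p B)

lemma ι_isoE (i : ι) :
    Sigma.ι (fun i => skyscraperSheaf (p i) (B i)) i ≫ (isoE p B).hom = incE p B i :=
  IsColimit.comp_coconePointUniqueUpToIso_hom (colimit.isColimit _) (isColimitE p B) ⟨i⟩

lemma incE_isoE_inv (i : ι) :
    incE p B i ≫ (isoE p B).inv = Sigma.ι (fun i => skyscraperSheaf (p i) (B i)) i :=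
  IsColimit.comp_coconePointUniqueUpToIso_inv (colimit.isColimit _) (isColimitE p B) ⟨i⟩

omit [NoetherianSpace X] in
lemma sheafHom_ext {F G : Sheaf (Opens.grothendieckTopology X) AddCommGrpCat.{u}} {m m' : F ⟶ G}
    (h : ∀ (U : Opens X) (b : F.obj.obj (op U)), m.hom.app (op U) b = m'.hom.app (op U) b) :
    m = m' :=
  Sheaf.hom_ext (NatTrans.ext (funext fun U =>
    AddCommGrpCat.hom_ext (AddMonoidHom.ext fun b => h U.unop b)))

lemma incE_toSky (i : ι) {U : Opens X} (h : p i ∈ U) (a : B i) :
    (incE p B i).hom.app (op U) ((toSky (p i) (B i) h).hom a) = sgE p B i U h a := by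
  have h2 : (incE p B i).hom.app (op U) ((toSky (p i) (B i) h).hom a) =
      sgE p B i U h ((toSky (p i) (B i) h).inv ((toSky (p i) (B i) h).hom a)) :=
    ConcreteCategory.congr_hom (incE_app p B i h) _
  have h3 : (toSky (p i) (B i) h).inv ((toSky (p i) (B i) h).hom a) = a :=
    ConcreteCategory.congr_hom (toSky (p i) (B i) h).hom_inv_id a
  rw [h2, h3]

lemma prE_inv (i : ι) {U : Opens X} (h : p i ∈ U) (f : (E p (fun i => B i)).sec U) :
    (toSky (p i) (B i) h).inv ((prE p B i).hom.app (op U) f) = f.1 i :=
  ConcreteCategory.congr_hom (prE_app_inv p B i h) f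

lemma prE_apply (i : ι) {U : Opens X} (h : p i ∈ U) (f : (E p (fun i => B i)).sec U) :
    (prE p B i).hom.app (op U) f = (toSky (p i) (B i) h).hom (f.1 i) :=
  ConcreteCategory.congr_hom (prE_app p B i h) f

/-- A morphism to the sheaf of families is determined by its components. -/
lemma hom_ext_prE {F : Sheaf (Opens.grothendieckTopology X) AddCommGrpCat.{u}}
    {m m' : F ⟶ (E p (fun i => B i)).sheaf} (h : ∀ i, m ≫ prE p B i = m' ≫ prE p B i) :
    m = m' := by
  refine sheafHom_ext fun U b => ?_
  change (m.hom.app (op U) b : (E p (fun i => B i)).sec U) =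
    (m'.hom.app (op U) b : (E p (fun i => B i)).sec U)
  refine Subtype.ext (DFinsupp.ext fun i => ?_)
  by_cases hi : p i ∈ U
  · have h1 := congrArg (fun g => g.hom.app (op U)) (h i)
    have h2 := ConcreteCategory.congr_hom h1 b
    refine (prE_inv p i hi (m.hom.app (op U) b)).symm.trans ?_
    exact (congrArg (toSky (p i) (B i) hi).inv h2).trans
      (prE_inv p i hi (m'.hom.app (op U) b))
  · exact ((m.hom.app (op U) b : (E p (fun i => B i)).sec U).2 i hi).trans
      ((m'.hom.app (op U) b : (E p (fun i => B i)).sec U).2 i hi).symm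

lemma incE_prE_self (i : ι) : incE p B i ≫ prE p B i = 𝟙 _ := by
  classical
  refine sheafHom_ext fun U b => ?_
  by_cases h : p i ∈ U
  · have hb : (toSky (p i) (B i) h).hom ((toSky (p i) (B i) h).inv b) = b :=
      ConcreteCategory.congr_hom (toSky (p i) (B i) h).inv_hom_id b
    have h1 : (incE p B i).hom.app (op U) b =
        sgE p B i U h ((toSky (p i) (B i) h).inv b) := by
      rw [← incE_toSky p i h, hb]
    refine (congrArg ((prE p B i).hom.app (op U)) h1).trans ?_
    refine (prE_apply p i h _).trans ?_
    have h2 : (sgE p B i U h ((toSky (p i) (B i) h).inv b)).1 i =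
        (toSky (p i) (B i) h).inv b := DFinsupp.single_eq_same (β := fun i => (B i : Type u))
    rw [h2]
    exact hb
  · exact (sky_subsingleton (p i) (B i) h).elim _ _

lemma incE_prE_ne {i j : ι} (hij : i ≠ j) : incE p B i ≫ prE p B j = 0 := by
  classical
  refine sheafHom_ext fun U b => ?_
  by_cases hj : p j ∈ U
  · by_cases h : p i ∈ U
    · have hb : (toSky (p i) (B i) h).hom ((toSky (p i) (B i) h).inv b) = b :=
        ConcreteCategory.congr_hom (toSky (p i) (B i) h).inv_hom_id b
      have h1 : (incE p B i).hom.app (op U) b =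
          sgE p B i U h ((toSky (p i) (B i) h).inv b) := by
        rw [← incE_toSky p i h, hb]
      refine (congrArg ((prE p B j).hom.app (op U)) h1).trans ?_
      refine (prE_apply p j hj _).trans ?_
      have h2 : (sgE p B i U h ((toSky (p i) (B i) h).inv b)).1 j = 0 :=
        DFinsupp.single_eq_of_ne (β := fun i => (B i : Type u)) hij.symm
      rw [h2]
      exact map_zero (toSky (p j) (B j) hj).hom.hom
    · have hb : b = 0 := (sky_subsingleton (p i) (B i) h).elim _ _
      rw [hb]
      exact map_zero ((incE p B i ≫ prE p B j).hom.app (op U)).hom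
  · exact (sky_subsingleton (p j) (B j) hj).elim _ _

lemma isoE_hom_prE [DecidableEq ι] (i : ι) :
    (isoE p B).hom ≫ prE p B i = Sigma.π (fun i => skyscraperSheaf (p i) (B i)) i := by
  refine Sigma.hom_ext _ _ fun j => ?_
  refine (Category.assoc _ _ _).symm.trans ?_
  refine (congrArg (· ≫ prE p B i) (ι_isoE p j)).trans ?_
  by_cases h : j = i
  · subst h
    exact (incE_prE_self p j).trans
      (Sigma.ι_π_eq_id (fun i => skyscraperSheaf (p i) (B i)) j).symm
  · exact (incE_prE_ne p h).trans
      (Sigma.ι_π_of_ne (fun i => skyscraperSheaf (p i) (B i)) h).symm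

lemma isoE_inv_π [DecidableEq ι] (i : ι) :
    (isoE p B).inv ≫ Sigma.π (fun i => skyscraperSheaf (p i) (B i)) i = prE p B i := by
  rw [← isoE_hom_prE p i]
  exact (isoE p B).inv_hom_id_assoc _

end families

section maps

variable {X : TopCat.{u}} [NoetherianSpace X] {ι κ : Type u} {p : ι → X} {q : κ → X}
  [∀ (i : ι) (U : Opens X), Decidable (p i ∈ U)] [∀ (k : κ) (U : Opens X), Decidable (q k ∈ U)]
  {B : ι → AddCommGrpCat.{u}} {C : κ → AddCommGrpCat.{u}}

open Classical in
/-- The components of the morphism given by a local homomorphism. -/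
lemma incE_mapE_prE (φ : (Π₀ i, B i) →+ (Π₀ k, C k)) (hφ : IsLocalHom p q φ) (i : ι) (k : κ)
    {U : Opens X} (hi : p i ∈ U) (hk : q k ∈ U) (a : B i) :
    (incE p B i ≫ mapE φ hφ ≫ prE q C k).hom.app (op U) ((toSky (p i) (B i) hi).hom a) =
      (toSky (q k) (C k) hk).hom (φ (DFinsupp.single i a) k) := by
  have h1 : (incE p B i ≫ mapE φ hφ ≫ prE q C k).hom.app (op U)
      ((toSky (p i) (B i) hi).hom a) = (prE q C k).hom.app (op U) ((mapE φ hφ).hom.app (op U)
        ((incE p B i).hom.app (op U) ((toSky (p i) (B i) hi).hom a))) := rfl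
  rw [h1, incE_toSky p i hi]
  refine (prE_apply q k hk _).trans ?_
  refine congrArg (toSky (q k) (C k) hk).hom ?_
  exact keep_apply_pos (A := fun k => (C k : Type u)) q _ hk

/-- A morphism between sheaves of families with the components of a local homomorphism is the
morphism given by it. -/
lemma eq_mapE (φ : (Π₀ i, B i) →+ (Π₀ k, C k)) (hφ : IsLocalHom p q φ)
    (m : (E p (fun i => B i)).sheaf ⟶ (E q (fun k => C k)).sheaf)
    (hm : ∀ (i : ι) (k : κ) (U : Opens X), p i ∈ U → q k ∈ U →
      (incE p B i ≫ m ≫ prE q C k).hom.app (op U) =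
        (incE p B i ≫ mapE φ hφ ≫ prE q C k).hom.app (op U)) : m = mapE φ hφ := by
  refine hom_ext_incE p fun i => hom_ext_prE q fun k => ?_
  refine sheafHom_ext fun U b => ?_
  by_cases hk : q k ∈ U
  · by_cases hi : p i ∈ U
    · exact ConcreteCategory.congr_hom (hm i k U hi hk) b
    · have hb : b = 0 := (sky_subsingleton (p i) (B i) hi).elim _ _
      rw [hb]
      exact (map_zero _).trans (map_zero _).symm
  · exact (sky_subsingleton (q k) (C k) hk).elim _ _

end maps

end

end Pool.Agent.H84.KEW
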