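import Pool.Agent.H84.KEW.VanP
import Pool.Agent.H18.KEW.Chase
import Pool.Agent.H18.KEW.Flasque

/-! The chase for complexes of sheaves of families: from a class killed in cohomology to a finite
covering with local liftings. -/

open CategoryTheory TopologicalSpace Opposite Abelian Pool.Agent.H15.KEW Pool.Agent.H17.KW

universe u

namespace Pool.Agent.H84.KEW

noncomputable section

theorem t_flasque : T_FLASQUE.{u} := fun _ F n hF =>
  Pool.Agent.H18.KEW.subsingleton_H_of_isFlasque F n hF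

section

variable {X : TopCat.{u}} {ι : ℕ → Type u} (p : ∀ s, ι s → X) (A : ∀ s, ι s → Type u)
  [∀ s i, AddCommGroup (A s i)]
  (dF : ∀ s, (Π₀ i, A (s + 1) i) →+ (Π₀ i, A s i))
  (hloc : ∀ s, IsLocalHom (p (s + 1)) (p s) (dF s))
  (hdd : ∀ s f, dF s (dF (s + 1) f) = 0)
  (P : ∀ s, X → AddSubgroup (Π₀ i, A s i))

/-- The conditions of the subcomplex. -/
def CS : ∀ s, X → AddSubgroup (Π₀ i, A s i)
  | 0 => P 0
  | s + 1 => subP (p := p (s + 1)) (q := p s) (dF s) (P (s + 1)) (P s)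

lemma CS_le (s : ℕ) (x : X) : CS p A dF P s x ≤ P s x := by
  cases s with
  | zero => exact le_rfl
  | succ s => exact inf_le_left

/-- The subcomplex. -/
abbrev US (s : ℕ) : FSh (p s) (A s) := stalkwise (p s) (A s) (CS p A dF P s)

include hloc hdd in
lemma dF_mem_US {s : ℕ} {U : Opens X} {f : Π₀ i, A (s + 1) i}
    (hf : f ∈ (US p A dF P (s + 1)).sec U) :
    keep (p s) (A s) U (dF s f) ∈ (US p A dF P s).sec U := by
  refine ⟨fun i hi => keep_apply_neg (p s) _ hi, fun x hx => ?_⟩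
  rw [gen_keep (p s) hx]
  have h1 : gen (p s) (A s) x (dF s f) ∈ P s x := by
    have h2 : gen (p s) (A s) x (dF s (gen (p (s + 1)) (A (s + 1)) x f)) ∈ P s x := (hf.2 x hx).2
    rwa [gen_comp_gen (hloc s)] at h2
  cases s with
  | zero => exact h1
  | succ s =>
    refine ⟨h1, ?_⟩
    change gen (p s) (A s) x (dF s (gen (p (s + 1)) (A (s + 1)) x (dF (s + 1) f))) ∈ P s x
    rw [gen_comp_gen (hloc s), hdd s, map_zero]
    exact zero_mem _

variable [NoetherianSpace X]

/-- The complex of all families. -/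
abbrev DS (s : ℕ) : Shf X := (E (p s) (A s)).sheaf

/-- Its differential. -/
abbrev dS (s : ℕ) : DS p A (s + 1) ⟶ DS p A s := mapE (dF s) (hloc s)

/-- The inclusion of the subcomplex. -/
abbrev iS (s : ℕ) : (US p A dF P s).sheaf ⟶ DS p A s :=
  (US p A dF P s).incl (E (p s) (A s)) (fun _ _ hf => hf.1)

/-- The quotient complex. -/
abbrev TS (s : ℕ) : Shf X := Limits.cokernel (iS p A dF P s)

/-- The projection to the quotient complex. -/
abbrev qS (s : ℕ) : DS p A s ⟶ TS p A dF P s := Limits.cokernel.π (iS p A dF P s)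

instance mono_iS (s : ℕ) : Mono (iS p A dF P s) := mono_of_injective _ (fun _ _ hf =>
    Subtype.ext (congrArg Subtype.val hf :))

lemma iS_shortExact (s : ℕ) : (ShortComplex.mk (iS p A dF P s) (qS p A dF P s)
    (Limits.cokernel.condition _)).ShortExact :=
  ShortComplex.ShortExact.mk' (ShortComplex.exact_cokernel _) (mono_iS p A dF P s)
      (by dsimp; infer_instance)

include hdd in
lemma iS_dS (s : ℕ) : iS p A dF P (s + 1) ≫ dS p A dF hloc s ≫ qS p A dF P s = 0 := by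
  have h1 : iS p A dF P (s + 1) ≫ dS p A dF hloc s =
      (US p A dF P (s + 1)).map (US p A dF P s) (dF s) (hloc s)
        (fun U f hf => dF_mem_US p A dF hloc hdd P hf) ≫ iS p A dF P s := by
    ext U f
    rfl
  rw [← Category.assoc, h1, Category.assoc, Limits.cokernel.condition, Limits.comp_zero]

include hdd in
lemma dS_dS (s : ℕ) : dS p A dF hloc (s + 1) ≫ dS p A dF hloc s = 0 := by
  ext U f
  refine Subtype.ext ?_
  let f' : (E (p (s + 2)) (A (s + 2))).sec U.unop := f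
  change keep (p s) (A s) U.unop (dF s (keep (p (s + 1)) (A (s + 1)) U.unop (dF (s + 1) f'.1))) = 0
  rw [keep_comp_keep (hloc s), hdd s, map_zero]

/-- The differential of the quotient complex. -/
def tS (s : ℕ) : TS p A dF P (s + 1) ⟶ TS p A dF P s :=
  Limits.cokernel.desc _ (dS p A dF hloc s ≫ qS p A dF P s) (iS_dS p A dF hloc hdd P s)

lemma qS_tS (s : ℕ) : dS p A dF hloc s ≫ qS p A dF P s =
    qS p A dF P (s + 1) ≫ tS p A dF hloc hdd P s :=
  (Limits.cokernel.π_desc _ _ _).symm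

lemma tS_tS (s : ℕ) : tS p A dF hloc hdd P (s + 1) ≫ tS p A dF hloc hdd P s = 0 := by
  rw [← cancel_epi (qS p A dF P (s + 2)), ← Category.assoc, ← qS_tS, Category.assoc, ← qS_tS,
    ← Category.assoc, dS_dS p A dF hloc hdd, Limits.zero_comp, Limits.comp_zero]

/-- The hypotheses on the families, the differentials and the conditions. -/
structure Data (δ : X → ℕ) (e : ℕ) : Prop where
  strict : ∀ x y : X, x ⤳ y → x ≠ y → δ y < δ x
  fin : ∀ s (f : Π₀ i, A s i), {x : X | gen (p s) (A s) x f ∉ P s x}.Finite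
  ind : ∀ s, 1 ≤ s → s ≤ e → ∀ (x y₀ : X) (_ : y₀ ⤳ x) (c : Π₀ i, A (s + 1) i),
    ∃ c' : Π₀ i, A (s + 1) i, gen (p (s + 1)) (A (s + 1)) y₀ (c' - c) ∈ P (s + 1) y₀ ∧
      ∀ y : X, y ⤳ x → y ≠ y₀ → gen (p (s + 1)) (A (s + 1)) y c' ∈ P (s + 1) y
  v1 : ∀ s, 1 ≤ s → s ≤ e → ∀ (y : X) (a : Π₀ i, A (s + 1) i), s < δ y →
    (∀ y' : X, y' ⤳ y → gen (p (s + 1)) (A (s + 1)) y' a ∈ P (s + 1) y') →
      gen (p s) (A s) y (dF s (gen (p (s + 1)) (A (s + 1)) y a)) ∈ P s y
  v2 : ∀ s, 1 ≤ s → s ≤ e → ∀ (x y₀ : X) (_ : y₀ ⤳ x) (a : Π₀ i, A (s + 1) i), δ y₀ = s →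
      (∀ y : X, y ⤳ y₀ → gen (p (s + 1)) (A (s + 1)) y a ∈ P (s + 1) y) →
      ∃ a' : Π₀ i, A (s + 1) i,
        (∀ y : X, y ⤳ x → gen (p (s + 1)) (A (s + 1)) y a' ∈ P (s + 1) y) ∧
        (∀ y : X, y ⤳ y₀ → gen (p s) (A s) y (dF s (a' - a)) ∈ P s y) ∧
        ∀ y₁ : X, y₁ ⤳ x → δ y₁ = s → y₁ ≠ y₀ → ∀ y : X, y ⤳ y₁ →
          gen (p s) (A s) y (dF s a') ∈ P s y

/-- The germ at `x` of the image in the quotient complex of a section of `K` whose image satisfies
the conditions at all generizations of `x`. -/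
lemma germ_qS_eq_zero {e : ℕ} {K : Shf X} {k : K ⟶ DS p A (e + 1)}
    (w0 : k ≫ dS p A dF hloc e = 0) (hfin : ∀ s (f : Π₀ i, A s i),
      {x : X | gen (p s) (A s) x f ∉ P s x}.Finite)
    {U : Opens X} (c : K.obj.obj (op U)) {x : X} (hx : x ∈ U)
    (h : ∀ y, y ⤳ x → gen (p (e + 1)) (A (e + 1)) y
        (show (E (p (e + 1)) (A (e + 1))).sec U from k.hom.app (op U) c).1 ∈ P (e + 1) y) :
    (prs (TS p A dF P (e + 1))).germ U x hx
      ((k ≫ qS p A dF P (e + 1)).hom.app (op U) c) = 0 := by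
  let g : (E (p (e + 1)) (A (e + 1))).sec U := k.hom.app (op U) c
  have h0 : keep (p e) (A e) U (dF e g.1) = 0 := congrArg Subtype.val
    (comp_app_eq_zero w0 c)
  refine germ_quot (F := US p A dF P (e + 1)) (G := E (p (e + 1)) (A (e + 1)))
    (fun _ _ hf => hf.1) (qS p A dF P (e + 1)) (Limits.cokernel.condition _) g hx ?_
  have hfinC : ∀ f : Π₀ i, A (e + 1) i,
      {y : X | gen (p (e + 1)) (A (e + 1)) y f ∉ CS p A dF P (e + 1) y}.Finite := by
    intro f
    refine ((hfin (e + 1) f).union (hfin e (dF e f))).subset ?_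
    intro y hy
    by_contra hne
    rw [Set.mem_union, not_or] at hne
    obtain ⟨h1, h2⟩ := hne
    refine hy ⟨not_not.mp h1, ?_⟩
    change gen (p e) (A e) y (dF e (gen (p (e + 1)) (A (e + 1)) y f)) ∈ P e y
    rw [gen_comp_gen (hloc e)]
    exact not_not.mp h2
  rw [mem_stk_stalkwise hfinC, gen_gen _ (specializes_refl x)]
  refine ⟨rfl, fun y hy => ?_⟩
  rw [gen_gen _ hy]
  refine ⟨h y hy, ?_⟩
  change gen (p e) (A e) y (dF e (gen (p (e + 1)) (A (e + 1)) y g.1)) ∈ P e y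
  rw [gen_comp_gen (hloc e), ← gen_keep (p e) (hy.mem_open U.2 hx), h0, map_zero]
  exact zero_mem _

include hdd in
/-- ABS, with the factorisation as a hypothesis: a global family `z` whose class is killed in the
cohomology of `F` is locally a boundary modulo the conditions, by families which agree modulo the
conditions. -/
theorem abs_chase_fact [QuasiSober X] {δ : X → ℕ} {e : ℕ} (hD : Data p A dF P δ e)
    {K F : Shf X} {k : K ⟶ DS p A (e + 1)} (hR : IsRes (DS p A) (dS p A dF hloc) e k)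
    (ρ : K ⟶ F) [Epi ρ] (φ : F ⟶ TS p A dF P (e + 1)) (hφ : ρ ≫ φ = k ≫ qS p A dF P (e + 1))
    (z : Sheaf.H (DS p A 0) 0)
    (hz : Sheaf.H.map ρ (e + 1) (hR.cyc _ (show Ext _ (Z (DS p A) (dS p A dF hloc) 0) 0 from z)) =
      0) :
    ∃ (J : Type u) (_ : Finite J) (V : J → Opens X) (h : J → (Π₀ i, A 1 i)),
      (∀ x, ∃ a, x ∈ V a) ∧
      (∀ a, ∀ x ∈ V a, gen (p 0) (A 0) x (dF 0 (h a) - (show (E (p 0) (A 0)).sec ⊤ from
        Sheaf.H.equiv₀ (DS p A 0) (Limits.isTerminalTop (α := Opens X)) z).1) ∈ P 0 x) ∧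
      ∀ a b, ∀ x, x ∈ V a → x ∈ V b → gen (p 1) (A 1) x (h a - h b) ∈ P 1 x := by
  classical
  have hvan : ∀ s, 1 ≤ s → s ≤ e → Subsingleton (Sheaf.H (TS p A dF P (s + 1)) s) := by
    intro s hs hse
    exact s_van t_flasque X _ _ (p (s + 1)) (p s) (A (s + 1)) (A s) (dF s) (hloc s) (P (s + 1))
      (P s) δ s hs hD.strict (hD.fin (s + 1)) (hD.fin s) (hD.ind s hs hse)
      (hD.v1 s hs hse) (hD.v2 s hs hse) _
  obtain ⟨y, hy⟩ := Pool.Agent.H18.KEW.chase_sections (q := qS p A dF P)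
    (τ := tS p A dF hloc hdd P) (qS_tS p A dF hloc hdd P) hR (tS_tS p A dF hloc hdd P) ρ φ hφ
    hvan z hz
  let z0 : (DS p A 0).obj.obj (op ⊤) :=
    Sheaf.H.equiv₀ (DS p A 0) (Limits.isTerminalTop (α := Opens X)) z
  -- local liftings
  have hex : ∀ x : X, ∃ (V : Opens X) (hV : V ≤ ⊤) (h : (DS p A 1).obj.obj (op V)), x ∈ V ∧
      (qS p A dF P 1).hom.app (op V) h = (TS p A dF P 1).obj.map (homOfLE hV).op y := by
    intro x
    obtain ⟨V, hV, hxV, h, hh⟩ := locSurj_of_epi (qS p A dF P 1) y (x := x) trivial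
    exact ⟨V, hV, h, hxV, hh⟩
  choose V hV h hxV hh using hex
  obtain ⟨t, ht⟩ : ∃ t : Finset X, (Set.univ : Set X) ⊆ ⋃ k ∈ t, (V k : Set X) := by
    have hcpt : IsCompact (Set.univ : Set X) := NoetherianSpace.isCompact _
    exact hcpt.elim_finite_subcover (fun k => (V k : Set X)) (fun k => (V k).2)
      (fun x _ => Set.mem_iUnion.mpr ⟨x, hxV x⟩)
  refine ⟨{x : X // x ∈ t}, inferInstance, fun a => V a.1, fun a =>
    (show (E (p 1) (A 1)).sec (V a.1) from h a.1).1, fun x => ?_, fun a x hx => ?_,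
    fun a b x hxa hxb => ?_⟩
  · have h1 := ht (Set.mem_univ x)
    simp only [Set.mem_iUnion] at h1
    obtain ⟨k, hk, hxk⟩ := h1
    exact ⟨⟨k, hk⟩, hxk⟩
  · -- the differential
    let ha : (E (p 1) (A 1)).sec (V a.1) := h a.1
    let w : (DS p A 0).obj.obj (op (V a.1)) := (dS p A dF hloc 0).hom.app (op (V a.1)) (h a.1) -
      (DS p A 0).obj.map (homOfLE (hV a.1)).op z0
    have h1 : (qS p A dF P 0).hom.app (op (V a.1)) w = 0 := by
      have e1 : (qS p A dF P 0).hom.app (op (V a.1)) ((dS p A dF hloc 0).hom.app (op (V a.1))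
          (h a.1)) = (tS p A dF hloc hdd P 0).hom.app (op (V a.1))
            ((qS p A dF P 1).hom.app (op (V a.1)) (h a.1)) := by
        have e2 := congrArg (fun r : DS p A 1 ⟶ TS p A dF P 0 => r.hom.app (op (V a.1)) (h a.1))
          (qS_tS p A dF hloc hdd P 0)
        exact e2
      have e3 := map_app (tS p A dF hloc hdd P 0) (hV a.1) y
      have e4 := map_app (qS p A dF P 0) (hV a.1) z0
      rw [map_sub, e1, hh a.1, e3, e4, hy, sub_self]
    obtain ⟨f, hf⟩ := lift_of_exact (iS_shortExact p A dF P 0) w h1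
    let f' : (US p A dF P 0).sec (V a.1) := f
    have h2 : gen (p 0) (A 0) x f'.1 ∈ P 0 x := f'.2.2 x hx
    have h3 : f'.1 = keep (p 0) (A 0) (V a.1) (dF 0 ha.1) - keep (p 0) (A 0) (V a.1)
      (show (E (p 0) (A 0)).sec ⊤ from z0).1 := congrArg Subtype.val hf
    rw [h3, ← map_sub, gen_keep (p 0) hx] at h2
    exact h2
  · -- the differences
    let V' : Opens X := V a.1 ⊓ V b.1
    have hVa : V' ≤ V a.1 := inf_le_left
    have hVb : V' ≤ V b.1 := inf_le_right
    let w : (DS p A 1).obj.obj (op V') := (DS p A 1).obj.map (homOfLE hVa).op (h a.1) -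
      (DS p A 1).obj.map (homOfLE hVb).op (h b.1)
    have h1 : (qS p A dF P 1).hom.app (op V') w = 0 := by
      have e1 := map_app (qS p A dF P 1) hVa (h a.1)
      have e2 := map_app (qS p A dF P 1) hVb (h b.1)
      rw [map_sub, e1, e2, hh a.1, hh b.1, ← ConcreteCategory.comp_apply,
        ← ConcreteCategory.comp_apply, ← Functor.map_comp, ← Functor.map_comp, sub_eq_zero]
      rfl
    obtain ⟨f, hf⟩ := lift_of_exact (iS_shortExact p A dF P 1) w h1
    let f' : (US p A dF P 1).sec V' := f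
    have hxV' : x ∈ V' := ⟨hxa, hxb⟩
    have h2 : gen (p 1) (A 1) x f'.1 ∈ P 1 x := (CS_le p A dF P 1 x) (f'.2.2 x hxV')
    have h3 : f'.1 = keep (p 1) (A 1) V' (show (E (p 1) (A 1)).sec (V a.1) from h a.1).1 -
      keep (p 1) (A 1) V' (show (E (p 1) (A 1)).sec (V b.1) from h b.1).1 :=
        congrArg Subtype.val hf
    rw [h3, ← map_sub, gen_keep (p 1) hxV'] at h2
    exact h2

include hdd in
/-- ABS: a global family `z` whose class is killed in the cohomology of `F` is locally a boundary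
modulo the conditions, by families which agree modulo the conditions. -/
theorem abs_chase [QuasiSober X] {δ : X → ℕ} {e : ℕ} (hD : Data p A dF P δ e)
    {K F : Shf X} {k : K ⟶ DS p A (e + 1)} (hR : IsRes (DS p A) (dS p A dF hloc) e k)
    (ρ : K ⟶ F) [Epi ρ]
    (hkill : ∀ (U : Opens X) (c : K.obj.obj (op U)), ρ.hom.app (op U) c = 0 → ∀ x ∈ U,
      gen (p (e + 1)) (A (e + 1)) x
        (show (E (p (e + 1)) (A (e + 1))).sec U from k.hom.app (op U) c).1 ∈ P (e + 1) x)
    (z : Sheaf.H (DS p A 0) 0)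
    (hz : Sheaf.H.map ρ (e + 1) (hR.cyc _ (show Ext _ (Z (DS p A) (dS p A dF hloc) 0) 0 from z)) =
      0) :
    ∃ (J : Type u) (_ : Finite J) (V : J → Opens X) (h : J → (Π₀ i, A 1 i)),
      (∀ x, ∃ a, x ∈ V a) ∧
      (∀ a, ∀ x ∈ V a, gen (p 0) (A 0) x (dF 0 (h a) - (show (E (p 0) (A 0)).sec ⊤ from
        Sheaf.H.equiv₀ (DS p A 0) (Limits.isTerminalTop (α := Opens X)) z).1) ∈ P 0 x) ∧
      ∀ a b, ∀ x, x ∈ V a → x ∈ V b → gen (p 1) (A 1) x (h a - h b) ∈ P 1 x := by
  have hker : Limits.kernel.ι ρ ≫ k ≫ qS p A dF P (e + 1) = 0 := by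
    refine Sheaf.hom_ext (NatTrans.ext (funext fun U => ?_))
    refine AddCommGrpCat.hom_ext (AddMonoidHom.ext fun c => ?_)
    let c' : K.obj.obj (op U.unop) := (Limits.kernel.ι ρ).hom.app U c
    have hc' : ρ.hom.app (op U.unop) c' = 0 :=
      comp_app_eq_zero (Limits.kernel.condition ρ) (U := U.unop) c
    let g : (E (p (e + 1)) (A (e + 1))).sec U.unop := k.hom.app (op U.unop) c'
    have hg : g.1 ∈ (US p A dF P (e + 1)).sec U.unop := by
      refine ⟨g.2, fun x hx => ⟨hkill U.unop c' hc' x hx, ?_⟩⟩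
      change gen (p e) (A e) x (dF e (gen (p (e + 1)) (A (e + 1)) x g.1)) ∈ P e x
      rw [gen_comp_gen (hloc e)]
      have h1 : (dS p A dF hloc e).hom.app (op U.unop) (k.hom.app (op U.unop) c') = 0 :=
        comp_app_eq_zero hR.w0 c'
      have h2 : keep (p e) (A e) U.unop (dF e g.1) = 0 := congrArg Subtype.val h1
      rw [← gen_keep (p e) hx, h2, map_zero]
      exact zero_mem _
    have h3 := comp_app_eq_zero (Limits.cokernel.condition (iS p A dF P (e + 1)))
      (show (US p A dF P (e + 1)).sheaf.obj.obj (op U.unop) from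
        (⟨g.1, hg⟩ : (US p A dF P (e + 1)).sec U.unop))
    exact h3
  let φ : F ⟶ TS p A dF P (e + 1) :=
    (ShortComplex.exact_kernel ρ).gIsCokernel.desc
      (Limits.CokernelCofork.ofπ (k ≫ qS p A dF P (e + 1)) hker)
  have hφ : ρ ≫ φ = k ≫ qS p A dF P (e + 1) :=
    (ShortComplex.exact_kernel ρ).gIsCokernel.fac
      (Limits.CokernelCofork.ofπ (k ≫ qS p A dF P (e + 1)) hker) Limits.WalkingParallelPair.one
  exact abs_chase_fact p A dF hloc hdd P hD hR ρ φ hφ z hz

end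

end

end Pool.Agent.H84.KEW
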