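import Pool.Agent.H84.KEW.Sur
import Pool.Agent.H84.KEW.Abs

/-! The surjectivity of the restriction map, sheaf part. -/

open CategoryTheory TopologicalSpace Opposite Abelian Pool.Agent.H17.KW

universe u

namespace Pool.Agent.H84.KEW

noncomputable section

variable {X : TopCat.{u}}

/-- The pair is exact at `x`. -/
def LocExAt {F G H : Shf X} (a : F ⟶ G) (b : G ⟶ H) (x : X) : Prop :=
  ∀ (U : Opens X), x ∈ U → ∀ g : G.obj.obj (op U), b.hom.app (op U) g = 0 →
    ∃ (V : Opens X) (hV : V ≤ U), x ∈ V ∧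
    ∃ f : F.obj.obj (op V), a.hom.app (op V) f = G.obj.map (homOfLE hV).op g

lemma locSurjAt_lift {F G H : Shf X} {a : F ⟶ G} {b : G ⟶ H} {x : X} (h : LocExAt a b x)
    {K : Shf X} (i : K ⟶ G) [Mono i] (hi : i ≫ b = 0) (c : F ⟶ K) (hc : c ≫ i = a) :
    LocSurjAt c x := by
  intro U hx g
  obtain ⟨V, hV, hxV, f, hf⟩ := h U hx (i.hom.app (op U) g) (comp_app_eq_zero hi g)
  refine ⟨V, hV, hxV, f, ?_⟩
  rw [← sub_eq_zero]
  refine inj_of_mono i ?_
  rw [map_sub, map_app, ← hf, sub_eq_zero]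
  exact congrArg (fun r : F ⟶ G => r.hom.app (op V) f) hc

/-- The chase down, with the last term separate. -/
theorem chase_down' [NoetherianSpace X] [QuasiSober X] {δ : X → ℕ}
    (hδ : ∀ x y : X, x ⤳ y → x ≠ y → δ y < δ x)
    (S : ℕ → Shf X) (d : ∀ s, S (s + 1) ⟶ S s) (w : ∀ s, d (s + 1) ≫ d s = 0)
    (e : ℕ) (hac : ∀ s, s ≤ e + 1 → ∀ i, Subsingleton (Sheaf.H (S s) (i + 1)))
    (hex0 : ∀ x, LocSurjAt (d 0) x)
    (hex : ∀ s, s < e → ∀ x, s + 1 ≤ δ x → LocExAt (d (s + 1)) (d s) x)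
    {N : Shf X} (n : N ⟶ S (e + 1)) [Mono n] (hn : n ≫ d e = 0)
    (hexN : ∀ x, e + 1 ≤ δ x → LocExAt n (d e) x) :
    Subsingleton (Sheaf.H N (e + 2)) := by
  have key : ∀ s, s ≤ e + 1 → Subsingleton (Sheaf.H (Z S d s) (s + 1)) := by
    intro s
    induction s with
    | zero => intro hs; exact hac 0 hs 0
    | succ s ih =>
      intro hs
      refine H_of_exact_locSurj t_flasque hδ (SC S d w s) (SC_exact S d w s)
        (mono_Zι S d (s + 1)) s (fun x hx => ?_) (ih (by omega)) (hac (s + 1) hs (s + 1))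
      cases s with
      | zero => exact hex0 x
      | succ s =>
        exact locSurjAt_lift (hex s (by omega) x hx) (Zι S d (s + 1))
          (Limits.kernel.condition (d s)) (toZ S d w (s + 1)) (toZ_Zι S d w (s + 1))
  let n' : N ⟶ Z S d (e + 1) := Limits.kernel.lift (d e) n hn
  have hn' : n' ≫ Zι S d (e + 1) = n := Limits.kernel.lift_ι _ _ _
  have hm : Mono n' := by
    have : Mono (n' ≫ Zι S d (e + 1)) := by rw [hn']; infer_instance
    exact mono_of_mono n' (Zι S d (e + 1))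
  exact H_of_mono_locSurj t_flasque hδ n' (e + 1) (fun x hx =>
    locSurjAt_lift (hexN x hx) (Zι S d (e + 1)) (Limits.kernel.condition (d e)) n' hn')
    (key (e + 1) le_rfl)

/-- The final step: surjectivity of the composition of the class map and `H(ρ)`. -/
theorem sur_final {D : ℕ → Shf X} {δ : ∀ s, D (s + 1) ⟶ D s} {e : ℕ} {K F : Shf X}
    {k : K ⟶ D (e + 1)} (h : IsRes D δ e k)
    (hac : ∀ s i, Subsingleton (Sheaf.H (D s) (i + 1))) (ρ : K ⟶ F) [Epi ρ]
    (hN : Subsingleton (Sheaf.H (Limits.kernel ρ) (e + 2))) (y : Sheaf.H F (e + 1)) :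
    ∃ x : Sheaf.H (Z D δ 0) 0, Sheaf.H.map ρ (e + 1) (h.cyc _ x) = y := by
  have hses : (ShortComplex.mk (Limits.kernel.ι ρ) ρ (Limits.kernel.condition ρ)).ShortExact :=
    ShortComplex.ShortExact.mk' (ShortComplex.exact_kernel _) (by dsimp; infer_instance)
      (by dsimp; infer_instance)
  obtain ⟨y', hy'⟩ := Ext.covariant_sequence_exact₃ _ hses y rfl (Subsingleton.elim _ _)
  obtain ⟨x, hx⟩ := cyc_surjective h hac y'
  refine ⟨x, ?_⟩
  rw [hx]
  exact hy'

/-! ### The same for sheaves of families -/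

section fam

variable {ι : Type u} {p : ι → X} {A : ι → Type u} [∀ i, AddCommGroup (A i)]
variable {κ : Type u} {q : κ → X} {B : κ → Type u} [∀ k, AddCommGroup (B k)]
variable {μ : Type u} {r : μ → X} {C : μ → Type u} [∀ k, AddCommGroup (C k)]
variable [NoetherianSpace X]

/-- Exactness at a point of sheaves of families from exactness on germs. -/
lemma locExAt_map (F : FSh p A) (G : FSh q B) (H : FSh r C)
    (a : (Π₀ i, A i) →+ (Π₀ k, B k)) (ha : IsLocalHom p q a)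
    (haFG : ∀ (U : Opens X), ∀ f ∈ F.sec U, keep q B U (a f) ∈ G.sec U)
    (b : (Π₀ i, B i) →+ (Π₀ k, C k)) (hb : IsLocalHom q r b)
    (hbGH : ∀ (U : Opens X), ∀ f ∈ G.sec U, keep r C U (b f) ∈ H.sec U) {x : X}
    (h : ∀ c ∈ G.stk x, gen r C x (b c) = 0 → ∃ f ∈ F.stk x, gen q B x (a f) = c) :
    LocExAt (F.map G a ha haFG) (G.map H b hb hbGH) x := by
  intro U hx g hg
  let g' : G.sec U := g
  have h1 : gen r C x (b (gen q B x g'.1)) = 0 := by
    have h2 : keep r C U (b g'.1) = 0 := congrArg Subtype.val hg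
    rw [gen_comp_gen hb, ← gen_keep r hx, h2, map_zero]
  obtain ⟨f, hf, hfg⟩ := h _ (G.gen_mem_stk hx g'.2) h1
  have hf' : gen p A x f = f := F.gen_of_mem_stk hf
  rw [← hf'] at hf
  obtain ⟨V, hxV, hVU, hV⟩ := F.exists_keep_mem hx hf
  obtain ⟨W, hxW, hWV, hW⟩ := exists_keep_eq q hxV hfg
  have hW' : keep p A W f ∈ F.sec W := by
    have := F.res V W hWV _ hV
    rwa [keep_keep p hWV] at this
  refine ⟨W, hWV.trans hVU, hxW, (⟨keep p A W f, hW'⟩ : F.sec W), Subtype.ext ?_⟩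
  change keep q B W (a (keep p A W f)) = keep q B W g'.1
  rw [keep_comp_keep ha, hW]

/-- Surjectivity at a point of a morphism of sheaves of families from surjectivity on germs. -/
lemma locSurjAt_map (F : FSh p A) (G : FSh q B)
    (a : (Π₀ i, A i) →+ (Π₀ k, B k)) (ha : IsLocalHom p q a)
    (haFG : ∀ (U : Opens X), ∀ f ∈ F.sec U, keep q B U (a f) ∈ G.sec U) {x : X}
    (h : ∀ c ∈ G.stk x, ∃ f ∈ F.stk x, gen q B x (a f) = c) :
    LocSurjAt (F.map G a ha haFG) x := by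
  intro U hx g
  let g' : G.sec U := g
  obtain ⟨f, hf, hfg⟩ := h _ (G.gen_mem_stk hx g'.2)
  have hf' : gen p A x f = f := F.gen_of_mem_stk hf
  rw [← hf'] at hf
  obtain ⟨V, hxV, hVU, hV⟩ := F.exists_keep_mem hx hf
  obtain ⟨W, hxW, hWV, hW⟩ := exists_keep_eq q hxV hfg
  have hW' : keep p A W f ∈ F.sec W := by
    have := F.res V W hWV _ hV
    rwa [keep_keep p hWV] at this
  refine ⟨W, hWV.trans hVU, hxW, (⟨keep p A W f, hW'⟩ : F.sec W), Subtype.ext ?_⟩
  change keep q B W (a (keep p A W f)) = keep q B W g'.1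
  rw [keep_comp_keep ha, hW]

end fam

/-- ABS, going down: vanishing of the highest cohomology of the kernel sheaf `N` from a complex of
acyclic sheaves of families which is exact at the points of large dimension. -/
theorem abs_down [NoetherianSpace X] [QuasiSober X] {δ : X → ℕ}
    (hδ : ∀ x y : X, x ⤳ y → x ≠ y → δ y < δ x)
    {ι : ℕ → Type u} (p : ∀ s, ι s → X) (A : ∀ s, ι s → Type u) [∀ s i, AddCommGroup (A s i)]
    (dF : ∀ s, (Π₀ i, A (s + 1) i) →+ (Π₀ i, A s i))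
    (hloc : ∀ s, IsLocalHom (p (s + 1)) (p s) (dF s))
    (hdd : ∀ s f, dF s (dF (s + 1) f) = 0) (F : ∀ s, FSh (p s) (A s))
    (hF : ∀ s (U : Opens X), ∀ f ∈ (F (s + 1)).sec U,
      keep (p s) (A s) U (dF s f) ∈ (F s).sec U) (e : ℕ)
    (hac : ∀ s, s ≤ e + 1 → ∀ i, Subsingleton (Sheaf.H (F s).sheaf (i + 1)))
    (hex0 : ∀ x, ∀ c ∈ (F 0).stk x, ∃ a ∈ (F 1).stk x, gen (p 0) (A 0) x (dF 0 a) = c)
    (hex : ∀ s, s < e → ∀ x, s + 1 ≤ δ x → ∀ c ∈ (F (s + 1)).stk x,
      gen (p s) (A s) x (dF s c) = 0 →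
        ∃ a ∈ (F (s + 2)).stk x, gen (p (s + 1)) (A (s + 1)) x (dF (s + 1) a) = c)
    {N : Shf X} (n : N ⟶ (F (e + 1)).sheaf) [Mono n]
    (hn : ∀ (U : Opens X) (a : N.obj.obj (op U)), ∀ x ∈ U, gen (p e) (A e) x (dF e
      (show (F (e + 1)).sec U from n.hom.app (op U) a).1) = 0)
    (hexN : ∀ x, e + 1 ≤ δ x → ∀ c ∈ (F (e + 1)).stk x, gen (p e) (A e) x (dF e c) = 0 →
      ∃ (V : Opens X) (_ : x ∈ V) (a : N.obj.obj (op V)), gen (p (e + 1)) (A (e + 1)) x
        (show (F (e + 1)).sec V from n.hom.app (op V) a).1 = c) :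
    Subsingleton (Sheaf.H N (e + 2)) := by
  let S : ℕ → Shf X := fun s => (F s).sheaf
  let d : ∀ s, S (s + 1) ⟶ S s := fun s => (F (s + 1)).map (F s) (dF s) (hloc s) (hF s)
  have w : ∀ s, d (s + 1) ≫ d s = 0 := by
    intro s
    ext U f
    refine Subtype.ext ?_
    let f' : (F (s + 2)).sec U.unop := f
    change keep (p s) (A s) U.unop (dF s (keep (p (s + 1)) (A (s + 1)) U.unop
      (dF (s + 1) f'.1))) = 0
    rw [keep_comp_keep (hloc s), hdd s, map_zero]
  have hn' : n ≫ d e = 0 := by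
    refine Sheaf.hom_ext (NatTrans.ext (funext fun U => ?_))
    refine AddCommGrpCat.hom_ext (AddMonoidHom.ext fun a => ?_)
    refine Subtype.ext (DFinsupp.ext (fun i => ?_))
    change keep (p e) (A e) U.unop (dF e (show (F (e + 1)).sec U.unop from
      n.hom.app (op U.unop) a).1) i = 0
    by_cases hi : p e i ∈ U.unop
    · have h1 := hn U.unop a (p e i) hi
      have h2 := congrArg (fun t => t i) h1
      rw [keep_apply_pos (p e) _ hi]
      rwa [gen_apply_pos (p e) _ (specializes_refl _)] at h2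
    · exact keep_apply_neg (p e) _ hi
  refine chase_down' hδ S d w e hac (fun x => locSurjAt_map _ _ _ _ _ (hex0 x))
    (fun s hs x hx => locExAt_map _ _ _ _ _ _ _ _ _ (hex s hs x hx)) n hn' (fun x hx => ?_)
  intro U hxU g hg
  let g' : (F (e + 1)).sec U := g
  have h1 : gen (p e) (A e) x (dF e (gen (p (e + 1)) (A (e + 1)) x g'.1)) = 0 := by
    have h2 : keep (p e) (A e) U (dF e g'.1) = 0 := congrArg Subtype.val hg
    rw [gen_comp_gen (hloc e), ← gen_keep (p e) hxU, h2, map_zero]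
  obtain ⟨V, hxV, a, ha⟩ := hexN x hx _ ((F (e + 1)).gen_mem_stk hxU g'.2) h1
  obtain ⟨W, hxW, hWV, hW⟩ := exists_keep_eq (p (e + 1)) (U := V ⊓ U) ⟨hxV, hxU⟩ ha
  have h3 := map_app n (hWV.trans inf_le_left) a
  refine ⟨W, hWV.trans inf_le_right, hxW, N.obj.map (homOfLE (hWV.trans inf_le_left)).op a, ?_⟩
  rw [h3]
  exact Subtype.ext hW

end

end Pool.Agent.H84.KEW
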