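import Pool.Agent.H12.KSJ.Abs

/-! Existence of the recursively defined conditions. -/

open TopologicalSpace Pool.Agent.H12.KSJ

universe u

namespace Pool.Agent.H84.KEW

lemma Cond_congr {X : TopCat.{u}} {ι : ℕ → Type u} (p : ∀ s, ι s → X) (A : ∀ s, ι s → Type u)
    [∀ s i, AddCommGroup (A s i)] (Y : Set X) (δ : X → ℕ)
    {R R' : ∀ s, X → AddSubgroup (Π₀ i, A s i)} {s : ℕ} (h : R s = R' s) (y : X) :
    Cond p A Y δ R s y = Cond p A Y δ R' s y := by
  ext c
  change (∀ y', y' ⤳ y → (y' ∈ Y → δ y' = s → gen (p s) (A s) y' c ∈ R s y')) ↔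
    (∀ y', y' ⤳ y → (y' ∈ Y → δ y' = s → gen (p s) (A s) y' c ∈ R' s y'))
  rw [h]

/-- EXR. -/
theorem pf_EXR : T_EXR.{u} := by
  intro X ι p A _ dF Y δ e
  induction e with
  | zero =>
    intro top
    let R1 : ∀ s, X → AddSubgroup (Π₀ i, A s i) := Function.update (fun _ _ => ⊥) 1 top
    refine ⟨Function.update R1 0 (fun y =>
      (Cond p A Y δ R1 1 y).map ((gen (p 0) (A 0) y).comp (dF 0))), ?_, ?_⟩
    · rw [Function.update_of_ne (by omega)]
      exact Function.update_self _ _ _
    · intro s hs y
      obtain rfl : s = 0 := by omega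
      rw [Function.update_self]
      congr 1
  | succ e ih =>
    intro top
    let R1 : ∀ s, X → AddSubgroup (Π₀ i, A s i) := Function.update (fun _ _ => ⊥) (e + 2) top
    obtain ⟨R, hR1, hR2⟩ := ih (fun y => (Cond p A Y δ R1 (e + 2) y).map
      ((gen (p (e + 1)) (A (e + 1)) y).comp (dF (e + 1))))
    refine ⟨Function.update R (e + 2) top, ?_, ?_⟩
    · rw [Function.update_self]
    · intro s hs y
      rw [Function.update_of_ne (by omega)]
      rcases hs.eq_or_lt with h | h
      · subst h
        rw [hR1]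
        change (Cond p A Y δ R1 (e + 2) y).map _ = _
        congr 1
        exact Cond_congr p A Y δ (by rw [Function.update_self]; exact Function.update_self _ _ _) y
      · rw [hR2 s (by omega) y]
        congr 1
        exact Cond_congr p A Y δ (by rw [Function.update_of_ne (by omega)]) y

end Pool.Agent.H84.KEW
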