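import Pool.Agent.H84.KEW.Sur2
import Pool.Agent.H12.KSJ.Abs

/-! The abstract vanishing theorem NV for the surjectivity. -/

open CategoryTheory TopologicalSpace Opposite Abelian Pool.Agent.H12.KSJ

universe u

namespace Pool.Agent.H84.KEW

noncomputable section

section lift

variable {X : TopCat.{u}} [NoetherianSpace X] {ι : Type u} {p : ι → X} {A : ι → Type u}
  [∀ i, AddCommGroup (A i)] {N : Shf X}

/-- A morphism to a sheaf of families with values in a subsheaf. -/
def FSh.lift (F G : FSh p A) (ν : N ⟶ G.sheaf)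
    (h : ∀ (U : Opens X) (c : N.obj.obj (op U)),
      (show G.sec U from ν.hom.app (op U) c).1 ∈ F.sec U) : N ⟶ F.sheaf :=
  ⟨{ app := fun U => AddCommGrpCat.ofHom
        ((((G.sec U.unop).subtype).comp (ν.hom.app (op U.unop)).hom).codRestrict (F.sec U.unop)
          (h U.unop))
     naturality := fun {U V} g => by
       refine AddCommGrpCat.hom_ext (AddMonoidHom.ext fun c => ?_)
       have h1 := ConcreteCategory.congr_hom (ν.hom.naturality g) c
       have h2 := congrArg (fun t : G.sec V.unop => t.1) h1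
       exact Subtype.ext h2 }⟩

lemma FSh.lift_apply (F G : FSh p A) (ν : N ⟶ G.sheaf)
    (h : ∀ (U : Opens X) (c : N.obj.obj (op U)),
      (show G.sec U from ν.hom.app (op U) c).1 ∈ F.sec U) {U : Opens X} (c : N.obj.obj (op U)) :
    (show F.sec U from (F.lift G ν h).hom.app (op U) c).1 =
      (show G.sec U from ν.hom.app (op U) c).1 := rfl

end lift

/-- NV. -/
theorem pf_NV : T_NV.{u} := by
  intro X _ _ _ ι p A _ dF Y δ e R hD N ν _ hν0 hνx hνy
  classical
  let P : ∀ s, X → AddSubgroup (Π₀ i, A s i) := fun s y =>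
    if s ≤ e + 1 then PS A Y δ R s y else ⊥
  have hP : ∀ s, s ≤ e + 1 → ∀ y, P s y = PS A Y δ R s y := fun s hs y => if_pos hs
  have hP' : ∀ s, ¬ s ≤ e + 1 → ∀ y, P s y = ⊥ := fun s hs y => if_neg hs
  let F : ∀ s, FSh (p s) (A s) := fun s => stalkwise (p s) (A s) (P s)
  -- finiteness
  have hfin : ∀ s, s ≤ e + 1 → ∀ f : Π₀ i, A s i, {y | gen (p s) (A s) y f ∉ P s y}.Finite := by
    intro s hs f
    have h1 : ∀ i, {y ∈ (Y ∩ closure {p s i}) ∩ ((⊤ : Opens X) : Set X) | δ y = s}.Finite := by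
      intro i
      have hcl : IsClosed (Y ∩ closure {p s i}) := hD.closed.inter isClosed_closure
      refine finite_of_maximal hD.strict ?_ ?_
      · rw [hcl.closure_eq]
        exact Set.inter_subset_left
      · rintro z ⟨hzY, hz⟩
        have h2 : p s i ⤳ z := specializes_iff_mem_closure.mpr hz
        have h3 : p s i ≠ z := fun h => hD.hor s i (h ▸ hzY)
        have h4 := hD.strict _ _ h2 h3
        rw [hD.dim] at h4
        omega
    refine (Set.Finite.biUnion f.support.finite_toSet (fun i _ => h1 i)).subset ?_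
    intro y hy
    rw [Set.mem_ofPred_eq, hP s hs] at hy
    have hyY : y ∈ Y := by
      by_contra h
      exact hy (fun h' => absurd h' h)
    have hyδ : δ y = s := by
      by_contra h
      exact hy (fun _ h' => absurd h' h)
    have hne : gen (p s) (A s) y f ≠ 0 := by
      intro h
      exact hy (by rw [h]; exact zero_mem _)
    obtain ⟨i, hi⟩ : ∃ i, gen (p s) (A s) y f i ≠ 0 := by
      by_contra h
      rw [not_exists] at h
      exact hne (DFinsupp.ext (fun i => not_not.mp (h i)))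
    have hiy : p s i ⤳ y := by
      by_contra h
      exact hi (gen_apply_neg _ _ h)
    rw [gen_apply_pos _ _ hiy] at hi
    refine Set.mem_biUnion (x := i) (DFinsupp.mem_support_iff.mpr hi) ?_
    exact ⟨⟨⟨hyY, specializes_iff_mem_closure.mp hiy⟩, trivial⟩, hyδ⟩
  -- germs
  have hstk : ∀ s, s ≤ e + 1 → ∀ {x : X} {f : Π₀ i, A s i}, f ∈ (F s).stk x ↔
      gen (p s) (A s) x f = f ∧ ∀ y, y ⤳ x → gen (p s) (A s) y f ∈ P s y :=
    fun s hs {x f} => mem_stk_stalkwise (hfin s hs)
  have hoff : ∀ s, s ≤ e + 1 → ∀ x, x ∉ Y → ∀ g : Π₀ i, A s i,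
      gen (p s) (A s) x g ∈ (F s).stk x := by
    intro s hs x hx g
    rw [hstk s hs]
    refine ⟨gen_gen _ (specializes_refl x) g, fun y hy => ?_⟩
    rw [hP s hs]
    exact fun hyY => absurd (hy.mem_closed hD.closed hyY) hx
  -- no families at points of `Y` of large dimension
  have hsmall : ∀ s, ∀ x ∈ Y, s + 1 ≤ δ x → ∀ g : Π₀ i, A s i, gen (p s) (A s) x g = 0 := by
    intro s x hx hδx g
    refine DFinsupp.ext (fun i => ?_)
    by_cases hi : p s i ⤳ x
    · have h3 : p s i ≠ x := fun h => hD.hor s i (h ▸ hx)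
      have h4 := hD.strict _ _ hi h3
      rw [hD.dim] at h4
      omega
    · exact gen_apply_neg _ _ hi
  -- the conditions at the points of `Y`
  have hcond : ∀ s, s ≤ e → ∀ y ∈ Y, δ y = s → ∀ c ∈ R s y,
      ∃ a ∈ (F (s + 1)).stk y, gen (p s) (A s) y (dF s a) = c := by
    intro s hs y hy hδy c hc
    rw [hD.step s hs y hy hδy] at hc
    obtain ⟨a, ha, hac⟩ := hc
    refine ⟨gen (p (s + 1)) (A (s + 1)) y a, ?_, ?_⟩
    · rw [hstk (s + 1) (by omega)]
      refine ⟨gen_gen _ (specializes_refl y) a, fun z hz => ?_⟩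
      rw [gen_gen _ hz, hP (s + 1) (by omega)]
      exact ha z hz
    · rw [gen_comp_gen (hD.loc s)]
      exact hac
  have hmemR : ∀ s, s ≤ e + 1 → ∀ y ∈ Y, δ y = s → ∀ c ∈ (F s).stk y, c ∈ R s y := by
    intro s hs y hy hδy c hc
    rw [hstk s hs] at hc
    have h1 := hc.2 y (specializes_refl y)
    rw [hP s hs, hc.1] at h1
    exact h1 hy hδy
  have hF : ∀ s (U : Opens X), ∀ f ∈ (F (s + 1)).sec U,
      keep (p s) (A s) U (dF s f) ∈ (F s).sec U := by
    intro s U f hf
    refine ⟨fun i hi => keep_apply_neg _ _ hi, fun x hx => ?_⟩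
    rw [gen_keep _ hx]
    by_cases hs : s ≤ e
    · rw [hP s (by omega)]
      intro hxY hδx
      rw [hD.step s hs x hxY hδx]
      refine ⟨f, fun y hy => ?_, rfl⟩
      have h1 := hf.2 y (hy.mem_open U.2 hx)
      rwa [hP (s + 1) (by omega)] at h1
    · have h1 := hf.2 x hx
      rw [hP' (s + 1) (by omega), AddSubgroup.mem_bot] at h1
      rw [← gen_comp_gen (hD.loc s), h1, map_zero, map_zero]
      exact zero_mem _
  have hac : ∀ s, s ≤ e + 1 → ∀ i, Subsingleton (Sheaf.H (F s).sheaf (i + 1)) := by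
    intro s hs i
    refine flq_global t_flasque (P s) (hfin s hs) (fun y0 c => ?_) i
    by_cases hy0 : y0 ∈ Y ∧ δ y0 = s
    · obtain ⟨c', h1, h2⟩ := hD.iso s hs y0 hy0.1 hy0.2 c
      refine ⟨c', ?_, fun y hy => ?_⟩
      · rw [hP s hs]; exact fun _ _ => h1
      · rw [hP s hs]; exact fun hyY hδy => h2 y hyY hδy hy
    · refine ⟨0, ?_, fun y _ => ?_⟩
      · rw [hP s hs]; exact fun h1 h2 => absurd ⟨h1, h2⟩ hy0
      · rw [map_zero]; exact zero_mem _
  -- the morphism from `N`
  have hmem : ∀ (U : Opens X) (c : N.obj.obj (op U)),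
      (show (E (p (e + 1)) (A (e + 1))).sec U from ν.hom.app (op U) c).1 ∈ (F (e + 1)).sec U := by
    intro U c
    refine ⟨(show (E (p (e + 1)) (A (e + 1))).sec U from ν.hom.app (op U) c).2, fun x hx => ?_⟩
    rw [hP (e + 1) le_rfl]
    intro hxY hδx
    rw [hνy x hxY hδx]
    exact ⟨U, hx, c, rfl⟩
  let n : N ⟶ (F (e + 1)).sheaf := (F (e + 1)).lift (E (p (e + 1)) (A (e + 1))) ν hmem
  have hn : ∀ {U : Opens X} (c : N.obj.obj (op U)),
      (show (F (e + 1)).sec U from n.hom.app (op U) c).1 = famOf (p (e + 1)) (A (e + 1)) ν c :=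
    fun c => rfl
  have hmono : Mono n := by
    refine mono_of_injective n (fun U c hc => ?_)
    refine inj_of_mono ν (Subtype.ext ?_)
    have h1 := hn c
    rw [hc] at h1
    exact h1.symm
  refine abs_down hD.strict p A dF hD.loc hD.dd F hF e hac ?_ ?_ n ?_ ?_
  · -- onto at the last term
    intro x c hc
    by_cases hx : x ∈ Y
    · rcases Nat.eq_zero_or_pos (δ x) with h | h
      · exact hcond 0 (Nat.zero_le e) x hx h c (hmemR 0 (Nat.zero_le _) x hx h c hc)
      · have h1 := ((hstk 0 (Nat.zero_le _)).mp hc).1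
        rw [hsmall 0 x hx (by omega)] at h1
        exact ⟨0, zero_mem _, by rw [map_zero, map_zero, h1]⟩
    · obtain ⟨g, hg⟩ := hD.ex0 x hx c ((hstk 0 (Nat.zero_le _)).mp hc).1
      exact ⟨gen (p 1) (A 1) x g, hoff 1 (by omega) x hx g, by
        rw [gen_comp_gen (hD.loc 0), hg]⟩
  · -- exactness in the middle
    intro s hs x hδx c hc hc0
    by_cases hx : x ∈ Y
    · rcases hδx.eq_or_lt with h | h
      · exact hcond (s + 1) (by omega) x hx h.symm c
          (hmemR (s + 1) (by omega) x hx h.symm c hc)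
      · have h1 := ((hstk (s + 1) (by omega)).mp hc).1
        rw [hsmall (s + 1) x hx (by omega)] at h1
        exact ⟨0, zero_mem _, by rw [map_zero, map_zero, h1]⟩
    · obtain ⟨g, hg⟩ := hD.ex s hs x hx c ((hstk (s + 1) (by omega)).mp hc).1 hc0
      exact ⟨gen (p (s + 2)) (A (s + 2)) x g, hoff (s + 2) (by omega) x hx g, by
        rw [gen_comp_gen (hD.loc (s + 1)), hg]⟩
  · intro U c x hx
    exact hν0 U c x hx
  · -- the kernel
    intro x hδx c hc hc0
    by_cases hx : x ∈ Y
    · rcases hδx.eq_or_lt with h | h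
      · have h1 := hmemR (e + 1) le_rfl x hx h.symm c hc
        rw [hνy x hx h.symm] at h1
        exact h1
      · have h1 := ((hstk (e + 1) le_rfl).mp hc).1
        rw [hsmall (e + 1) x hx (by omega)] at h1
        refine ⟨⊤, trivial, 0, ?_⟩
        have h2 : (show (F (e + 1)).sec (⊤ : Opens X) from n.hom.app (op ⊤) 0).1 = 0 := by
          rw [map_zero]; rfl
        exact (congrArg (gen (p (e + 1)) (A (e + 1)) x) h2).trans (by rw [map_zero, h1])
    · exact hνx x hx c ((hstk (e + 1) le_rfl).mp hc).1 hc0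

end

end Pool.Agent.H84.KEW
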