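import Pool.Agent.H84.KEW.Stalk

/-! Exactness of sequences of sheaves and vanishing of cohomology. -/

open CategoryTheory TopologicalSpace Opposite Abelian

universe u

namespace Pool.Agent.H84.KEW

/-- Sheaves of abelian groups on a space. -/
abbrev Shf (X : TopCat.{u}) := Sheaf (Opens.grothendieckTopology X) AddCommGrpCat.{u}

variable {X : TopCat.{u}}

section
variable {S : ShortComplex (Shf X)} (hS : S.ShortExact)
include hS

lemma H_mid {n : ℕ} (h1 : Subsingleton (Sheaf.H S.X₁ n)) (h3 : Subsingleton (Sheaf.H S.X₃ n)) :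
    Subsingleton (Sheaf.H S.X₂ n) := by
  refine subsingleton_of_forall_eq 0 (fun x => ?_)
  obtain ⟨y, hy⟩ := Ext.covariant_sequence_exact₂ _ hS x (Subsingleton.elim _ _)
  rw [← hy, Subsingleton.elim y 0, Ext.zero_comp]

lemma H_left {n : ℕ} (h3 : Subsingleton (Sheaf.H S.X₃ n))
    (h2 : Subsingleton (Sheaf.H S.X₂ (n + 1))) : Subsingleton (Sheaf.H S.X₁ (n + 1)) := by
  refine subsingleton_of_forall_eq 0 (fun x => ?_)
  obtain ⟨y, hy⟩ := Ext.covariant_sequence_exact₁ _ hS x (Subsingleton.elim _ _) rfl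
  rw [← hy, Subsingleton.elim y 0, Ext.zero_comp]

lemma H_right {n : ℕ} (h2 : Subsingleton (Sheaf.H S.X₂ n))
    (h1 : Subsingleton (Sheaf.H S.X₁ (n + 1))) : Subsingleton (Sheaf.H S.X₃ n) := by
  refine subsingleton_of_forall_eq 0 (fun x => ?_)
  obtain ⟨y, hy⟩ := Ext.covariant_sequence_exact₃ _ hS x rfl (Subsingleton.elim _ _)
  rw [← hy, Subsingleton.elim y 0, Ext.zero_comp]

end

/-- The presheaf of a sheaf. -/
abbrev prs (M : Shf X) : TopCat.Presheaf AddCommGrpCat.{u} X := M.obj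

lemma isZero_of_stalk (M : Shf X) (h : ∀ x : X, Subsingleton ((prs M).stalk x)) :
    Limits.IsZero M := by
  refine (TopCat.Sheaf.isZero_iff_stalkFunctor_obj_isZero (C := AddCommGrpCat.{u}) (X := X) M).mpr
    (fun x => ?_)
  exact @AddCommGrpCat.isZero_of_subsingleton _ (h x)

lemma H_of_stalk_zero (M : Shf X) (h : ∀ x : X, Subsingleton ((prs M).stalk x)) (n : ℕ) :
    Subsingleton (Sheaf.H M n) :=
  Sheaf.subsingleton_H_of_isZero (isZero_of_stalk M h) n

/-- Flasque sheaves have no higher cohomology. -/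
def T_FLASQUE : Prop := ∀ (X : TopCat.{u}) (F : Shf X) (n : ℕ),
  TopCat.Presheaf.IsFlasque (prs F) → Subsingleton (Sheaf.H F (n + 1))

lemma mono_of_injective {F G : Shf X} (φ : F ⟶ G)
    (h : ∀ (U : Opens X) (f : F.obj.obj (op U)), φ.hom.app (op U) f = 0 → f = 0) : Mono φ := by
  refine (Sheaf.Hom.mono_iff_presheaf_mono _ _ _).mpr <|
    (NatTrans.mono_iff_mono_app _).mpr fun U => ?_
  refine (AddCommGrpCat.mono_iff_injective _).mpr ?_
  intro a b hab
  rw [← sub_eq_zero]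
  refine h U.unop (a - b) ?_
  rw [map_sub, sub_eq_zero]
  exact hab

lemma epi_of_locally_surjective {F G : Shf X} (φ : F ⟶ G)
    (h : ∀ (U : Opens X) (g : G.obj.obj (op U)), ∀ x ∈ U,
      ∃ (V : Opens X) (hV : V ≤ U), x ∈ V ∧ ∃ f : F.obj.obj (op V),
        φ.hom.app (op V) f = G.obj.map (homOfLE hV).op g) : Epi φ := by
  refine (TopCat.Sheaf.isLocallySurjective_iff_epi (X := X) (C := AddCommGrpCat.{u})
    (F := F) (G := G) φ).mp ?_
  rw [TopCat.Presheaf.isLocallySurjective_iff]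
  intro U t x hx
  obtain ⟨V, hV, hxV, g, hg⟩ := h U t x hx
  exact ⟨V, hV, ⟨g, hg⟩, hxV⟩

lemma exact_of_local (S : ShortComplex (Shf X))
    (hmid : ∀ (U : Opens X) (g : S.X₂.obj.obj (op U)), S.g.hom.app (op U) g = 0 → ∀ x ∈ U,
      ∃ (V : Opens X) (hV : V ≤ U), x ∈ V ∧ ∃ f : S.X₁.obj.obj (op V),
        S.f.hom.app (op V) f = S.X₂.obj.map (homOfLE hV).op g) : S.Exact := by
  refine (TopCat.Sheaf.exact_iff_stalkFunctor_map_exact (C := AddCommGrpCat.{u}) (X := X) S).mpr ?_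
  intro x
  rw [ShortComplex.ab_exact_iff]
  intro t ht
  obtain ⟨U, hx, g, rfl⟩ := TopCat.Presheaf.exists_germ_eq (prs S.X₂) t
  have h1 : TopCat.Presheaf.germ (prs S.X₃) U x hx (S.g.hom.app (op U) g) = 0 := by
    rw [← TopCat.Presheaf.stalkFunctor_map_germ_apply]
    exact ht
  obtain ⟨W, hxW, iU, iV, hW⟩ := TopCat.Presheaf.germ_eq (prs S.X₃) x hx hx
    (S.g.hom.app (op U) g) 0 (by rw [h1, map_zero])
  rw [map_zero] at hW
  have h2 : S.g.hom.app (op W) (S.X₂.obj.map iU.op g) = 0 := by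
    rw [← hW]
    exact ConcreteCategory.congr_hom (S.g.hom.naturality iU.op) g
  obtain ⟨V, hV, hxV, f, hf⟩ := hmid W _ h2 x hxW
  refine ⟨TopCat.Presheaf.germ (prs S.X₁) V x hxV f, ?_⟩
  change (TopCat.Presheaf.stalkFunctor AddCommGrpCat x).map S.f.hom _ = _
  rw [TopCat.Presheaf.stalkFunctor_map_germ_apply, hf]
  rw [TopCat.Presheaf.germ_res_apply, TopCat.Presheaf.germ_res_apply]

theorem shortExact_of_local (S : ShortComplex (Shf X))
    (hinj : ∀ (U : Opens X) (f : S.X₁.obj.obj (op U)), S.f.hom.app (op U) f = 0 → f = 0)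
    (hmid : ∀ (U : Opens X) (g : S.X₂.obj.obj (op U)), S.g.hom.app (op U) g = 0 → ∀ x ∈ U,
      ∃ (V : Opens X) (hV : V ≤ U), x ∈ V ∧ ∃ f : S.X₁.obj.obj (op V),
        S.f.hom.app (op V) f = S.X₂.obj.map (homOfLE hV).op g)
    (hsurj : ∀ (U : Opens X) (h : S.X₃.obj.obj (op U)), ∀ x ∈ U,
      ∃ (V : Opens X) (hV : V ≤ U), x ∈ V ∧ ∃ g : S.X₂.obj.obj (op V),
        S.g.hom.app (op V) g = S.X₃.obj.map (homOfLE hV).op h) :
    S.ShortExact :=
  ShortComplex.ShortExact.mk' (exact_of_local S hmid) (mono_of_injective _ hinj)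
    (epi_of_locally_surjective _ hsurj)

variable {ι : Type u} (p : ι → X) (A : ι → Type u) [∀ i, AddCommGroup (A i)]

lemma isFlasque_E [NoetherianSpace X] : TopCat.Presheaf.IsFlasque (prs (E p A).sheaf) where
  epi {U V} i := by
    refine (AddCommGrpCat.epi_iff_surjective _).mpr ?_
    intro f
    have hUV : V.unop ≤ U.unop := leOfHom i.unop
    let g : (E p A).sec V.unop := f
    have hg : ∀ i, p i ∉ V.unop → g.1 i = 0 := (E p A).supp _ _ g.2
    refine ⟨(⟨g.1, fun i hi => hg i (fun h => hi (hUV h))⟩ : (E p A).sec U.unop), ?_⟩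
    exact Subtype.ext (keep_eq_self p hg)

end Pool.Agent.H84.KEW
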