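import Pool.Agent.H84.KEW.Dim
import Pool.Agent.H17.KW.Chain
import Pool.Agent.H18.KEW.Flasque

/-! Vanishing of the cohomology of the kernel sheaf, for the surjectivity. -/

open CategoryTheory TopologicalSpace Opposite Abelian Pool.Agent.H17.KW

universe u

namespace Pool.Agent.H84.KEW

noncomputable section

variable {X : TopCat.{u}}

/-- The morphism is locally surjective at `x`. -/
def LocSurjAt {F G : Shf X} (φ : F ⟶ G) (x : X) : Prop :=
  ∀ (U : Opens X), x ∈ U → ∀ g : G.obj.obj (op U), ∃ (V : Opens X) (hV : V ≤ U), x ∈ V ∧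
    ∃ f : F.obj.obj (op V), φ.hom.app (op V) f = G.obj.map (homOfLE hV).op g

lemma zeroAt_of_locSurjAt {F G C : Shf X} {φ : F ⟶ G} {x : X} (h : LocSurjAt φ x) (π : G ⟶ C)
    [Epi π] (hπ : φ ≫ π = 0) : ZeroAt C x := by
  intro U hx c
  obtain ⟨V, hV, hxV, g, hg⟩ := locSurj_of_epi π c hx
  obtain ⟨W, hW, hxW, f, hf⟩ := h V hxV g
  refine ⟨W, hW.trans hV, hxW, ?_⟩
  have h1 := comp_app_eq_zero hπ f
  rw [hf, map_app, hg, ← ConcreteCategory.comp_apply, ← Functor.map_comp] at h1
  exact h1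

section
variable [NoetherianSpace X] [QuasiSober X] (hF : T_FLASQUE.{u}) {δ : X → ℕ}
    (hδ : ∀ x y : X, x ⤳ y → x ≠ y → δ y < δ x)

include hF hδ in
/-- The cohomology of the image. -/
lemma H_coimage {F G : Shf X} (φ : F ⟶ G) (m : ℕ) (h : ∀ x, m ≤ δ x → LocSurjAt φ x)
    (hG : Subsingleton (Sheaf.H G (m + 1))) :
    Subsingleton (Sheaf.H (Abelian.coimage φ) (m + 1)) := by
  let S2 : ShortComplex (Shf X) := ShortComplex.mk (Abelian.factorThruCoimage φ)
    (Limits.cokernel.π (Abelian.factorThruCoimage φ)) (Limits.cokernel.condition _)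
  have hS2 : S2.ShortExact := ShortComplex.ShortExact.mk' (ShortComplex.exact_cokernel _)
    (by dsimp [S2]; infer_instance) (by dsimp [S2]; infer_instance)
  have hC := dim_vanishing hF hδ m (Limits.cokernel (Abelian.factorThruCoimage φ)) (fun x hx =>
    zeroAt_of_locSurjAt (h x hx) (Limits.cokernel.π (Abelian.factorThruCoimage φ)) (by
      have h1 : φ ≫ Limits.cokernel.π (Abelian.factorThruCoimage φ) =
          (Limits.cokernel.π (Limits.kernel.ι φ) ≫ Abelian.factorThruCoimage φ) ≫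
            Limits.cokernel.π (Abelian.factorThruCoimage φ) :=
        congrArg (fun t => t ≫ Limits.cokernel.π (Abelian.factorThruCoimage φ))
          (Abelian.coimage.fac φ).symm
      rw [Category.assoc, Limits.cokernel.condition, Limits.comp_zero] at h1
      exact h1)) m le_rfl
  exact H_left hS2 hC hG

include hF hδ in
lemma H_kernel_of_locSurj {F G : Shf X} (φ : F ⟶ G) (m : ℕ) (h : ∀ x, m ≤ δ x → LocSurjAt φ x)
    (hG : Subsingleton (Sheaf.H G (m + 1))) (hF' : Subsingleton (Sheaf.H F (m + 2))) :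
    Subsingleton (Sheaf.H (Limits.kernel φ) (m + 2)) := by
  let S1 : ShortComplex (Shf X) := ShortComplex.mk (Limits.kernel.ι φ)
    (Limits.cokernel.π (Limits.kernel.ι φ)) (Limits.cokernel.condition _)
  have hS1 : S1.ShortExact := ShortComplex.ShortExact.mk' (ShortComplex.exact_cokernel _)
    (by dsimp [S1]; infer_instance) (by dsimp [S1]; infer_instance)
  exact H_left hS1 (n := m + 1) (H_coimage hF hδ φ m h hG) hF'

include hF hδ in
lemma H_of_mono_locSurj {F G : Shf X} (φ : F ⟶ G) [Mono φ] (m : ℕ)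
    (h : ∀ x, m ≤ δ x → LocSurjAt φ x) (hG : Subsingleton (Sheaf.H G (m + 1))) :
    Subsingleton (Sheaf.H F (m + 1)) := by
  let S2 : ShortComplex (Shf X) := ShortComplex.mk φ (Limits.cokernel.π φ)
    (Limits.cokernel.condition _)
  have hS2 : S2.ShortExact := ShortComplex.ShortExact.mk' (ShortComplex.exact_cokernel _)
    (by dsimp [S2]; infer_instance) (by dsimp [S2]; infer_instance)
  exact H_left hS2 (dim_vanishing hF hδ m (Limits.cokernel φ) (fun x hx =>
    zeroAt_of_locSurjAt (h x hx) (Limits.cokernel.π φ) (Limits.cokernel.condition _)) m le_rfl) hG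

include hF hδ in
lemma H_of_exact_locSurj (S : ShortComplex (Shf X)) (hS : S.Exact) (hm : Mono S.f) (m : ℕ)
    (h : ∀ x, m ≤ δ x → LocSurjAt S.g x) (hG : Subsingleton (Sheaf.H S.X₃ (m + 1)))
    (hF' : Subsingleton (Sheaf.H S.X₂ (m + 2))) : Subsingleton (Sheaf.H S.X₁ (m + 2)) := by
  have h1 : Mono (Limits.cokernel.desc S.f S.g S.zero) := S.exact_iff_mono_cokernel_desc.mp hS
  have h2 : Subsingleton (Sheaf.H (Limits.cokernel S.f) (m + 1)) := by
    refine H_of_mono_locSurj hF hδ (Limits.cokernel.desc S.f S.g S.zero) m (fun x hx => ?_) hG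
    intro U hxU g
    obtain ⟨V, hV, hxV, f, hf⟩ := h x hx U hxU g
    refine ⟨V, hV, hxV, (Limits.cokernel.π S.f).hom.app (op V) f, ?_⟩
    rw [← hf]
    have h3 : Limits.cokernel.π S.f ≫ Limits.cokernel.desc S.f S.g S.zero = S.g :=
      Limits.cokernel.π_desc _ _ _
    exact congrArg (fun r : S.X₂ ⟶ S.X₃ => r.hom.app (op V) f) h3
  have hS1 : (ShortComplex.mk S.f (Limits.cokernel.π S.f)
      (Limits.cokernel.condition _)).ShortExact :=
    ShortComplex.ShortExact.mk' (ShortComplex.exact_cokernel _) hm (by dsimp; infer_instance)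
  exact H_left hS1 (n := m + 1) h2 hF'

omit [NoetherianSpace X] [QuasiSober X] in
lemma SC_exact (S : ℕ → Shf X) (d : ∀ s, S (s + 1) ⟶ S s) (w : ∀ s, d (s + 1) ≫ d s = 0)
    (s : ℕ) : (SC S d w s).Exact := by
  rw [ShortComplex.exact_iff_exact_up_to_refinements]
  intro A x hx
  have hex := ShortComplex.exact_kernel (d s)
  rw [ShortComplex.exact_iff_exact_up_to_refinements] at hex
  refine hex x ?_
  have aux : ∀ (x : A ⟶ S (s + 1)), x ≫ toZ S d w s = 0 → x ≫ d s = 0 := by
    intro x h1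
    rw [← toZ_Zι S d w s, ← Category.assoc, h1, Limits.zero_comp]
  exact aux x hx

include hF hδ in
/-- The chase down. -/
theorem chase_down (S : ℕ → Shf X) (d : ∀ s, S (s + 1) ⟶ S s) (w : ∀ s, d (s + 1) ≫ d s = 0)
    (D : ℕ) (hac : ∀ s, s ≤ D → ∀ i, Subsingleton (Sheaf.H (S s) (i + 1)))
    (hex : ∀ s, s ≤ D → ∀ x, s ≤ δ x → LocSurjAt (toZ S d w s) x) (hmono : Mono (d D)) :
    Subsingleton (Sheaf.H (S (D + 1)) (D + 1)) := by
  have key : ∀ s, s ≤ D → Subsingleton (Sheaf.H (Z S d s) (s + 1)) := by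
    intro s
    induction s with
    | zero => intro hs; exact hac 0 hs 0
    | succ s ih =>
      intro hs
      exact H_of_exact_locSurj hF hδ (SC S d w s) (SC_exact S d w s) (mono_Zι S d (s + 1)) s
        (hex s (by omega)) (ih (by omega)) (hac (s + 1) hs (s + 1))
  have hm : Mono (toZ S d w D) := by
    have : Mono (toZ S d w D ≫ Zι S d D) := by rw [toZ_Zι]; exact hmono
    exact mono_of_mono (toZ S d w D) (Zι S d D)
  exact H_of_mono_locSurj hF hδ (toZ S d w D) D (hex D le_rfl) (key D le_rfl)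

end

/-! ### Flasque quotients, global version -/

/-- If the global sections of the quotient lift then `H^1` of the kernel injects. -/
lemma H_one_of_lift {S : ShortComplex (Shf X)} (hS : S.ShortExact)
    (h : ∀ g : S.X₃.obj.obj (op ⊤), ∃ f : S.X₂.obj.obj (op ⊤), S.g.hom.app (op ⊤) f = g)
    (h2 : Subsingleton (Sheaf.H S.X₂ 1)) : Subsingleton (Sheaf.H S.X₁ 1) := by
  refine subsingleton_of_forall_eq 0 (fun x => ?_)
  obtain ⟨y, hy⟩ := Ext.covariant_sequence_exact₁ _ hS x (Subsingleton.elim _ _) (zero_add 1)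
  let y' : Sheaf.H S.X₃ 0 := y
  obtain ⟨f, hf⟩ := h (Sheaf.H.equiv₀ S.X₃ (Limits.isTerminalTop (α := Opens X)) y')
  have h3 := Sheaf.H.equiv₀_symm_naturality (Limits.isTerminalTop (α := Opens X)) S.g f
  rw [hf, AddEquiv.symm_apply_apply] at h3
  have h4 : y = Ext.comp ((Sheaf.H.equiv₀ S.X₂ (Limits.isTerminalTop (α := Opens X))).symm f)
    (Ext.mk₀ S.g) (add_zero 0) := h3.symm
  rw [← hy, h4, Ext.comp_assoc (a₁₂ := 0) (a₂₃ := 1) _ _ _ (by lia) (by lia) (by lia),
    hS.comp_extClass, Ext.comp_zero]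

variable [NoetherianSpace X] {ι : Type u} {p : ι → X} {A : ι → Type u}
  [∀ i, AddCommGroup (A i)]

/-- Global independence of the conditions: the sheaf of families with conditions is acyclic. -/
theorem flq_global (hF : T_FLASQUE.{u}) (S : X → AddSubgroup (Π₀ i, A i))
    (hfin : ∀ f : Π₀ i, A i, {y | gen p A y f ∉ S y}.Finite)
    (hglob : ∀ (y0 : X) (c : Π₀ i, A i), ∃ c' : Π₀ i, A i,
      gen p A y0 (c' - c) ∈ S y0 ∧ ∀ y, y ≠ y0 → gen p A y c' ∈ S y) (n : ℕ) :
    Subsingleton (Sheaf.H (stalkwise p A S).sheaf (n + 1)) := by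
  classical
  have hses := flqSeq_shortExact S hfin (fun x y0 _ c => by
    obtain ⟨c', h1, h2⟩ := hglob y0 c
    exact ⟨c', h1, fun y _ hy => h2 y hy⟩)
  cases n with
  | succ n =>
    exact H_left hses (n := n + 1) (hF X _ n (isFlasque_E _ _)) (hF X _ (n + 1) (isFlasque_E _ _))
  | zero =>
    refine H_one_of_lift hses (fun h => ?_) (hF X _ 0 (isFlasque_E _ _))
    let h' : (E (fun y : X => y) (QS (p := p) S)).sec ⊤ := h
    have hrep : ∀ y : X, ∃ c : Π₀ i, A i, QuotientAddGroup.mk' _ c = h'.1 y := fun y =>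
      QuotientAddGroup.mk'_surjective _ _
    choose c hc using hrep
    choose c' hc' using fun y : X => hglob y (c y)
    let s : Π₀ i, A i := ∑ y ∈ h'.1.support, c' y
    have key : qmap p S hfin s = h'.1 := by
      refine DFinsupp.ext (fun z => ?_)
      by_cases hzT : z ∈ h'.1.support
      · have h1 : s = c' z + ∑ y ∈ h'.1.support.erase z, c' y :=
          (Finset.add_sum_erase _ _ hzT).symm
        rw [← hc z, ← sub_eq_zero, qmap_apply, ← map_sub, ← qmap_apply (p := p) S hfin,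
          qmap_apply_eq_zero, h1, add_sub_right_comm, map_add]
        refine add_mem (hc' z).1 ?_
        rw [map_sum]
        refine sum_mem (fun y hy => ?_)
        exact (hc' y).2 z (Finset.ne_of_mem_erase hy).symm
      · have h1 : h'.1 z = 0 := by
          by_contra hne
          exact hzT (DFinsupp.mem_support_iff.mpr hne)
        rw [h1, qmap_apply_eq_zero, map_sum]
        refine sum_mem (fun y hy => ?_)
        refine (hc' y).2 z ?_
        rintro rfl
        exact hzT hy
    refine ⟨(⟨s, fun i hi => absurd trivial hi⟩ : (E p A).sec ⊤), ?_⟩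
    refine Subtype.ext ?_
    change keep (fun y : X => y) (QS (p := p) S) ⊤ (qmap p S hfin s) = h'.1
    rw [key]
    exact keep_eq_self _ (fun i hi => absurd trivial hi)

/-! ### The class map is surjective -/

omit [NoetherianSpace X] in
/-- If the terms of a resolution are acyclic then the iterated connecting map is onto. -/
theorem cyc_surjective {D : ℕ → Shf X} {δ : ∀ s, D (s + 1) ⟶ D s} {e : ℕ} {K : Shf X}
    {k : K ⟶ D (e + 1)} (h : IsRes D δ e k)
    (hac : ∀ s i, Subsingleton (Sheaf.H (D s) (i + 1))) (y : Sheaf.H K (e + 1)) :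
    ∃ x : Sheaf.H (Z D δ 0) 0, h.cyc _ x = y := by
  have key : ∀ s (hs : s ≤ e + 1) (y : Sheaf.H (Z D δ s) s), ∃ x : Sheaf.H (Z D δ 0) 0,
      conn D δ h.w _ (e + 1) h.shortExact s hs x = y := by
    intro s
    induction s with
    | zero => intro hs y; exact ⟨y, rfl⟩
    | succ s ih =>
      intro hs y
      have h1 : (y.comp (Ext.mk₀ (SC D δ h.w s).f) (add_zero (s + 1)) : Sheaf.H (D (s + 1)) (s + 1))
          = 0 := @Subsingleton.elim _ (hac (s + 1) s) _ _
      obtain ⟨y', hy'⟩ := Ext.covariant_sequence_exact₁ _ (h.shortExact s (by omega)) y h1 rfl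
      obtain ⟨x, hx⟩ := ih (by omega) y'
      refine ⟨x, ?_⟩
      rw [conn_succ, hx]
      exact hy'
  have := h.isIso_toZ
  obtain ⟨x, hx⟩ := key (e + 1) le_rfl (Sheaf.H.map h.toZ (e + 1) y)
  refine ⟨x, ?_⟩
  change (conn D δ h.w _ (e + 1) h.shortExact (e + 1) le_rfl x).comp (Ext.mk₀ (inv h.toZ))
    (add_zero (e + 1)) = y
  rw [hx]
  have h2 := Sheaf.H.map_comp_apply h.toZ (inv h.toZ) y
  rw [IsIso.hom_inv_id, Sheaf.H.map_id_apply] at h2
  exact h2.symm

end

end Pool.Agent.H84.KEW
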