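import Mathlib

/-!
# Sheaves of finitely supported families on a noetherian space

`X` is a noetherian topological space, `p : ι → X` a family of points, `A i` an abelian group for
every `i : ι`. All sheaves in this file have sections in the one group `Π₀ i, A i` of finitely
supported families: a section over `U` is a family which vanishes at all `i` with `p i ∉ U`,
restriction to `V` sets the components with `p i ∉ V` to zero.
-/

open CategoryTheory TopologicalSpace Opposite

universe u

namespace Pool.Agent.H84.KEW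

noncomputable section

variable {X : TopCat.{u}} {ι : Type u} (p : ι → X) (A : ι → Type u) [∀ i, AddCommGroup (A i)]

open Classical in
/-- Keep the components at the points of `U`. -/
def keep (U : Opens X) : (Π₀ i, A i) →+ (Π₀ i, A i) :=
  DFinsupp.filterAddMonoidHom A (fun i => p i ∈ U)

open Classical in
/-- Keep the components at the points which specialize to `x`. -/
def gen (x : X) : (Π₀ i, A i) →+ (Π₀ i, A i) :=
  DFinsupp.filterAddMonoidHom A (fun i => p i ⤳ x)

variable {A}

lemma keep_apply_pos {U : Opens X} (f : Π₀ i, A i) {i : ι} (h : p i ∈ U) :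
    keep p A U f i = f i := by
  classical
  unfold keep
  rw [DFinsupp.filterAddMonoidHom_apply]
  exact DFinsupp.filter_apply_pos f h

lemma keep_apply_neg {U : Opens X} (f : Π₀ i, A i) {i : ι} (h : p i ∉ U) :
    keep p A U f i = 0 := by
  classical
  unfold keep
  rw [DFinsupp.filterAddMonoidHom_apply]
  exact DFinsupp.filter_apply_neg f h

lemma gen_apply_pos {x : X} (f : Π₀ i, A i) {i : ι} (h : p i ⤳ x) :
    gen p A x f i = f i := by
  classical
  unfold gen
  rw [DFinsupp.filterAddMonoidHom_apply]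
  exact DFinsupp.filter_apply_pos f h

lemma gen_apply_neg {x : X} (f : Π₀ i, A i) {i : ι} (h : ¬ p i ⤳ x) :
    gen p A x f i = 0 := by
  classical
  unfold gen
  rw [DFinsupp.filterAddMonoidHom_apply]
  exact DFinsupp.filter_apply_neg f h

variable (A)

/-- A sheaf of finitely supported families: subgroups of `Π₀ i, A i` for all open sets, with
restriction and a local condition. -/
structure FSh where
  sec : Opens X → AddSubgroup (Π₀ i, A i)
  supp : ∀ U f, f ∈ sec U → ∀ i, p i ∉ U → f i = 0
  res : ∀ U V : Opens X, V ≤ U → ∀ f ∈ sec U, keep p A V f ∈ sec V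
  loc : ∀ (U : Opens X) f, (∀ i, p i ∉ U → f i = 0) →
    (∀ x ∈ U, ∃ V : Opens X, x ∈ V ∧ V ≤ U ∧ keep p A V f ∈ sec V) → f ∈ sec U

variable {p A}

namespace FSh

variable (F : FSh p A)

/-- The restriction map. -/
def resHom {U V : Opens X} (h : V ≤ U) : F.sec U →+ F.sec V :=
  ((keep p A V).comp (F.sec U).subtype).codRestrict (F.sec V)
    (fun f => F.res U V h f.1 f.2)

lemma resHom_apply {U V : Opens X} (h : V ≤ U) (f : F.sec U) :
    (F.resHom h f).1 = keep p A V f.1 := rfl

/-- The presheaf. -/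
def psh : TopCat.Presheaf AddCommGrpCat.{u} X where
  obj U := AddCommGrpCat.of (F.sec U.unop)
  map i := AddCommGrpCat.ofHom (F.resHom (leOfHom i.unop))
  map_id := by
    intro U
    ext f i
    change keep p A U.unop f.1 i = f.1 i
    by_cases h : p i ∈ U.unop
    · exact keep_apply_pos p _ h
    · rw [keep_apply_neg p _ h, F.supp _ _ f.2 i h]
  map_comp := by
    intro U V W a b
    ext f i
    change keep p A W.unop f.1 i = keep p A W.unop (keep p A V.unop f.1) i
    by_cases h : p i ∈ W.unop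
    · rw [keep_apply_pos p _ h, keep_apply_pos p _ h,
        keep_apply_pos p _ ((leOfHom b.unop) h)]
    · rw [keep_apply_neg p _ h, keep_apply_neg p _ h]

lemma psh_map_apply {U V : Opens X} (h : V ≤ U) (f : F.sec U) :
    (show F.sec V from F.psh.map (homOfLE h).op f).1 = keep p A V f.1 := rfl

theorem isSheaf [NoetherianSpace X] : TopCat.Presheaf.IsSheaf F.psh := by
  classical
  rw [TopCat.Presheaf.isSheaf_iff_isSheafUniqueGluing]
  intro κ U sf hc
  have sf' : ∀ k, F.sec (U k) := sf
  have key : ∀ (i : ι) (a b : κ), p i ∈ U a → p i ∈ U b →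
      (sf a : F.sec (U a)).1 i = (sf b : F.sec (U b)).1 i := by
    intro i a b ha hb
    have h1 := hc a b
    have h2 := congrArg (fun s : F.sec (U a ⊓ U b) => s.1 i) h1
    have h3 : keep p A (U a ⊓ U b) (sf a : F.sec (U a)).1 i =
      keep p A (U a ⊓ U b) (sf b : F.sec (U b)).1 i := h2
    rw [keep_apply_pos p _ (show p i ∈ U a ⊓ U b from ⟨ha, hb⟩),
      keep_apply_pos p _ (show p i ∈ U a ⊓ U b from ⟨ha, hb⟩)] at h3
    exact h3
  obtain ⟨t, ht⟩ : ∃ t : Finset κ, ((iSup U : Opens X) : Set X) ⊆ ⋃ k ∈ t, (U k : Set X) := by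
    have hcpt : IsCompact ((iSup U : Opens X) : Set X) := NoetherianSpace.isCompact _
    refine hcpt.elim_finite_subcover (fun k => (U k : Set X)) (fun k => (U k).2) ?_
    intro x hx
    obtain ⟨k, hk⟩ := Opens.mem_iSup.mp hx
    exact Set.mem_iUnion.mpr ⟨k, hk⟩
  let val : ∀ i : ι, A i := fun i =>
    if h : ∃ k, p i ∈ U k then (sf (Classical.choose h) : F.sec (U _)).1 i else 0
  let s : Π₀ i, A i := DFinsupp.mk (t.biUnion fun k => (sf k : F.sec (U k)).1.support)
    (fun i => val i.1)
  have hval : ∀ (i : ι) (k : κ), p i ∈ U k → s i = (sf k : F.sec (U k)).1 i := by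
    intro i k hk
    have hex : ∃ k, p i ∈ U k := ⟨k, hk⟩
    by_cases hi : i ∈ t.biUnion fun k => (sf k : F.sec (U k)).1.support
    · have h1 : s i = val i := DFinsupp.mk_of_mem hi
      rw [h1]
      change (if h : ∃ k, p i ∈ U k then (sf (Classical.choose h) : F.sec (U _)).1 i else 0) = _
      rw [dif_pos hex]
      exact key i _ _ (Classical.choose_spec hex) hk
    · have h1 : s i = 0 := DFinsupp.mk_of_notMem hi
      rw [h1]
      have h2 : p i ∈ ((iSup U : Opens X) : Set X) := Opens.mem_iSup.mpr ⟨k, hk⟩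
      have h3 := ht h2
      simp only [Set.mem_iUnion] at h3
      obtain ⟨b, hb, hib⟩ := h3
      have h4 : (sf b : F.sec (U b)).1 i = 0 := by
        by_contra h5
        exact hi (Finset.mem_biUnion.mpr ⟨b, hb, DFinsupp.mem_support_iff.mpr h5⟩)
      rw [key i k b hk hib, h4]
  have hzero : ∀ i, p i ∉ iSup U → s i = 0 := by
    intro i hi
    have hne : ¬ ∃ k, p i ∈ U k := fun ⟨k, hk⟩ => hi (Opens.mem_iSup.mpr ⟨k, hk⟩)
    by_cases him : i ∈ t.biUnion fun k => (sf k : F.sec (U k)).1.support
    · have h1 : s i = val i := DFinsupp.mk_of_mem him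
      rw [h1]
      exact dif_neg hne
    · exact DFinsupp.mk_of_notMem him
  have hkeep : ∀ k, keep p A (U k) s = (sf k : F.sec (U k)).1 := by
    intro k
    refine DFinsupp.ext (fun i => ?_)
    by_cases h : p i ∈ U k
    · rw [keep_apply_pos p _ h, hval i k h]
    · rw [keep_apply_neg p _ h, F.supp _ _ (sf k : F.sec (U k)).2 i h]
  have hs : s ∈ F.sec (iSup U) := by
    refine F.loc _ _ hzero ?_
    intro x hx
    obtain ⟨k, hk⟩ := Opens.mem_iSup.mp hx
    refine ⟨U k, hk, le_iSup U k, ?_⟩
    rw [hkeep k]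
    exact (sf k : F.sec (U k)).2
  refine ⟨(⟨s, hs⟩ : F.sec (iSup U)), ?_, ?_⟩
  · intro k
    exact Subtype.ext (hkeep k)
  · intro r hr
    refine Subtype.ext (DFinsupp.ext (fun i => ?_))
    change (r : F.sec (iSup U)).1 i = s i
    by_cases h : ∃ k, p i ∈ U k
    · obtain ⟨k, hk⟩ := h
      have h1 := hr k
      have h2 : keep p A (U k) (r : F.sec (iSup U)).1 = (sf k : F.sec (U k)).1 :=
        congrArg Subtype.val h1
      rw [hval i k hk, ← h2, keep_apply_pos p _ hk]
    · have hi : p i ∉ iSup U := fun h' => h (Opens.mem_iSup.mp h')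
      rw [hzero i hi, F.supp _ _ (r : F.sec (iSup U)).2 i hi]

/-- The sheaf. -/
def sheaf [NoetherianSpace X] : Sheaf (Opens.grothendieckTopology X) AddCommGrpCat.{u} :=
  ⟨F.psh, F.isSheaf⟩

/-- The stalk as a subgroup of `Π₀ i, A i`: families of components at the generizations of `x`
which extend to a section on a neighbourhood. -/
def stk (x : X) : AddSubgroup (Π₀ i, A i) where
  carrier := {g | ∃ U : Opens X, x ∈ U ∧ ∃ f ∈ F.sec U, gen p A x f = g}
  zero_mem' := ⟨⊤, trivial, 0, zero_mem _, map_zero _⟩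
  add_mem' := by
    rintro a b ⟨U, hU, f, hf, rfl⟩ ⟨V, hV, g, hg, rfl⟩
    refine ⟨U ⊓ V, ⟨hU, hV⟩, keep p A (U ⊓ V) f + keep p A (U ⊓ V) g,
      add_mem (F.res _ _ inf_le_left f hf) (F.res _ _ inf_le_right g hg), ?_⟩
    refine DFinsupp.ext (fun i => ?_)
    by_cases h : p i ⤳ x
    · have hi : p i ∈ U ⊓ V := h.mem_open (U ⊓ V).2 ⟨hU, hV⟩
      rw [gen_apply_pos p _ h, DFinsupp.add_apply, DFinsupp.add_apply, keep_apply_pos p _ hi,
        keep_apply_pos p _ hi, gen_apply_pos p _ h, gen_apply_pos p _ h]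
    · rw [gen_apply_neg p _ h, DFinsupp.add_apply, gen_apply_neg p _ h, gen_apply_neg p _ h,
        add_zero]
  neg_mem' := by
    rintro a ⟨U, hU, f, hf, rfl⟩
    exact ⟨U, hU, -f, neg_mem hf, map_neg _ _⟩

end FSh

/-! ### The flasque sheaf of all finitely supported families -/

variable (p A)

/-- All finitely supported families. -/
def E : FSh p A where
  sec U :=
    { carrier := {f | ∀ i, p i ∉ U → f i = 0}
      zero_mem' := fun _ _ => rfl
      add_mem' := fun {a b} ha hb i hi => by rw [DFinsupp.add_apply, ha i hi, hb i hi, add_zero]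
      neg_mem' := fun {a} ha i hi => by rw [DFinsupp.neg_apply, ha i hi, neg_zero] }
  supp U f hf := hf
  res U V _ f _ i hi := keep_apply_neg p f hi
  loc U f hf _ := hf

/-- The families with components in given groups `G x i` at all `x` (for `p i ⤳ x`). -/
def coord (G : X → ∀ i, AddSubgroup (A i)) : FSh p A where
  sec U :=
    { carrier := {f | (∀ i, p i ∉ U → f i = 0) ∧ ∀ x ∈ U, ∀ i, p i ⤳ x → f i ∈ G x i}
      zero_mem' := ⟨fun _ _ => rfl, fun x _ i _ => zero_mem _⟩
      add_mem' := fun {a b} ha hb =>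
        ⟨fun i hi => by rw [DFinsupp.add_apply, ha.1 i hi, hb.1 i hi, add_zero],
          fun x hx i hi => by
            rw [DFinsupp.add_apply]; exact add_mem (ha.2 x hx i hi) (hb.2 x hx i hi)⟩
      neg_mem' := fun {a} ha =>
        ⟨fun i hi => by rw [DFinsupp.neg_apply, ha.1 i hi, neg_zero],
          fun x hx i hi => by rw [DFinsupp.neg_apply]; exact neg_mem (ha.2 x hx i hi)⟩ }
  supp U f hf := hf.1
  res U V h f hf := by
    refine ⟨fun i hi => keep_apply_neg p f hi, fun x hx i hi => ?_⟩
    rw [keep_apply_pos p f (hi.mem_open V.2 hx)]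
    exact hf.2 x (h hx) i hi
  loc U f hf h := by
    refine ⟨hf, fun x hx i hi => ?_⟩
    obtain ⟨V, hxV, _, hV⟩ := h x hx
    have h1 := hV.2 x hxV i hi
    rwa [keep_apply_pos p f (hi.mem_open V.2 hxV)] at h1

/-- The families whose parts at all generizations of `x` lie in a given subgroup `S x`,
for all `x`. -/
def stalkwise (S : X → AddSubgroup (Π₀ i, A i)) : FSh p A where
  sec U :=
    { carrier := {f | (∀ i, p i ∉ U → f i = 0) ∧ ∀ x ∈ U, gen p A x f ∈ S x}
      zero_mem' := ⟨fun _ _ => rfl, fun x _ => by rw [map_zero]; exact zero_mem _⟩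
      add_mem' := fun {a b} ha hb =>
        ⟨fun i hi => by rw [DFinsupp.add_apply, ha.1 i hi, hb.1 i hi, add_zero],
          fun x hx => by rw [map_add]; exact add_mem (ha.2 x hx) (hb.2 x hx)⟩
      neg_mem' := fun {a} ha =>
        ⟨fun i hi => by rw [DFinsupp.neg_apply, ha.1 i hi, neg_zero],
          fun x hx => by rw [map_neg]; exact neg_mem (ha.2 x hx)⟩ }
  supp U f hf := hf.1
  res U V h f hf := by
    refine ⟨fun i hi => keep_apply_neg p f hi, fun x hx => ?_⟩
    have h1 : gen p A x (keep p A V f) = gen p A x f := by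
      refine DFinsupp.ext (fun i => ?_)
      by_cases hi : p i ⤳ x
      · rw [gen_apply_pos p _ hi, gen_apply_pos p _ hi, keep_apply_pos p _ (hi.mem_open V.2 hx)]
      · rw [gen_apply_neg p _ hi, gen_apply_neg p _ hi]
    rw [h1]
    exact hf.2 x (h hx)
  loc U f hf h := by
    refine ⟨hf, fun x hx => ?_⟩
    obtain ⟨V, hxV, _, hV⟩ := h x hx
    have h1 : gen p A x (keep p A V f) = gen p A x f := by
      refine DFinsupp.ext (fun i => ?_)
      by_cases hi : p i ⤳ x
      · rw [gen_apply_pos p _ hi, gen_apply_pos p _ hi, keep_apply_pos p _ (hi.mem_open V.2 hxV)]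
      · rw [gen_apply_neg p _ hi, gen_apply_neg p _ hi]
    rw [← h1]
    exact hV.2 x hxV

variable {p A}

/-! ### Morphisms -/

variable {κ : Type u} {q : κ → X} {B : κ → Type u} [∀ k, AddCommGroup (B k)]

/-- A homomorphism of groups of families is local if the image of a family concentrated in `i` is
supported at specializations of `p i`. -/
def IsLocalHom (p : ι → X) (q : κ → X) (φ : (Π₀ i, A i) →+ (Π₀ k, B k)) : Prop :=
  ∀ (f : Π₀ i, A i) (k : κ), (∀ i, p i ⤳ q k → f i = 0) → φ f k = 0

lemma keep_comp_keep {φ : (Π₀ i, A i) →+ (Π₀ k, B k)} (hφ : IsLocalHom p q φ) (V : Opens X)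
    (f : Π₀ i, A i) : keep q B V (φ (keep p A V f)) = keep q B V (φ f) := by
  refine DFinsupp.ext (fun k => ?_)
  by_cases hk : q k ∈ V
  · rw [keep_apply_pos q _ hk, keep_apply_pos q _ hk, ← sub_eq_zero, ← DFinsupp.sub_apply,
      ← map_sub]
    refine hφ _ k (fun i hi => ?_)
    rw [DFinsupp.sub_apply, keep_apply_pos p _ (hi.mem_open V.2 hk), sub_self]
  · rw [keep_apply_neg q _ hk, keep_apply_neg q _ hk]

lemma gen_comp_gen {φ : (Π₀ i, A i) →+ (Π₀ k, B k)} (hφ : IsLocalHom p q φ) (x : X)
    (f : Π₀ i, A i) : gen q B x (φ (gen p A x f)) = gen q B x (φ f) := by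
  refine DFinsupp.ext (fun k => ?_)
  by_cases hk : q k ⤳ x
  · rw [gen_apply_pos q _ hk, gen_apply_pos q _ hk, ← sub_eq_zero, ← DFinsupp.sub_apply,
      ← map_sub]
    refine hφ _ k (fun i hi => ?_)
    rw [DFinsupp.sub_apply, gen_apply_pos p _ (hi.trans hk), sub_self]
  · rw [gen_apply_neg q _ hk, gen_apply_neg q _ hk]

/-- The morphism of sheaves given by a family of homomorphisms of the groups of sections. -/
def FSh.homOf [NoetherianSpace X] (F : FSh p A) (G : FSh q B)
    (φ : ∀ U : Opens X, F.sec U →+ G.sec U)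
    (h : ∀ (U V : Opens X) (hV : V ≤ U) (f : F.sec U), φ V (F.resHom hV f) = G.resHom hV (φ U f)) :
    F.sheaf ⟶ G.sheaf :=
  ⟨{ app := fun U => AddCommGrpCat.ofHom (φ U.unop)
     naturality := fun {U V} g => by
       ext f : 2
       exact h U.unop V.unop (leOfHom g.unop) f }⟩

/-- The morphism of sheaves given by a local homomorphism. -/
def FSh.map [NoetherianSpace X] (F : FSh p A) (G : FSh q B) (φ : (Π₀ i, A i) →+ (Π₀ k, B k))
    (hφ : IsLocalHom p q φ) (h : ∀ (U : Opens X), ∀ f ∈ F.sec U, keep q B U (φ f) ∈ G.sec U) :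
    F.sheaf ⟶ G.sheaf :=
  F.homOf G (fun U => (((keep q B U).comp φ).comp (F.sec U).subtype).codRestrict (G.sec U)
    (fun f => h U f.1 f.2)) (by
      intro U V hV f
      refine Subtype.ext ?_
      change keep q B V (φ (keep p A V f.1)) = keep q B V (keep q B U (φ f.1))
      rw [keep_comp_keep hφ]
      refine DFinsupp.ext (fun k => ?_)
      by_cases hk : q k ∈ V
      · rw [keep_apply_pos q _ hk, keep_apply_pos q _ hk, keep_apply_pos q _ (hV hk)]
      · rw [keep_apply_neg q _ hk, keep_apply_neg q _ hk])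

/-- The morphism of the sheaves of all families given by a local homomorphism. -/
def mapE [NoetherianSpace X] (φ : (Π₀ i, A i) →+ (Π₀ k, B k)) (hφ : IsLocalHom p q φ) :
    (E p A).sheaf ⟶ (E q B).sheaf :=
  (E p A).map (E q B) φ hφ (fun _ _ _ _ hi => keep_apply_neg q _ hi)

/-- The inclusion of a subsheaf. -/
def FSh.incl [NoetherianSpace X] (F G : FSh p A) (h : ∀ U, F.sec U ≤ G.sec U) :
    F.sheaf ⟶ G.sheaf :=
  F.homOf G (fun U => AddSubgroup.inclusion (h U)) (fun _ _ _ _ => rfl)

end

end Pool.Agent.H84.KEW
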