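import Pool.Agent.H84.KEW.Flq

/-! Vanishing of cohomology above the dimension of the support. -/

open CategoryTheory TopologicalSpace Opposite Abelian

universe u

namespace Pool.Agent.H84.KEW

noncomputable section

variable {X : TopCat.{u}}

/-- The sheaf `M` is zero at `x`. -/
def ZeroAt (M : Shf X) (x : X) : Prop :=
  ∀ (U : Opens X), x ∈ U → ∀ s : M.obj.obj (op U), ∃ (V : Opens X) (hV : V ≤ U), x ∈ V ∧
    M.obj.map (homOfLE hV).op s = 0

lemma exists_res_eq_zero {M : Shf X} {x : X} {U : Opens X} (hx : x ∈ U) {s : M.obj.obj (op U)}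
    (h : (prs M).germ U x hx s = 0) : ∃ (V : Opens X) (hV : V ≤ U), x ∈ V ∧
    M.obj.map (homOfLE hV).op s = 0 := by
  obtain ⟨W, hxW, iU, iV, hW⟩ := TopCat.Presheaf.germ_eq (prs M) x hx hx s 0
    (by rw [h, map_zero])
  rw [map_zero] at hW
  exact ⟨W, leOfHom iU, hxW, hW⟩

lemma germ_eq_zero {M : Shf X} {x : X} {U V : Opens X} (hV : V ≤ U) (hx : x ∈ V)
    {s : M.obj.obj (op U)} (h : M.obj.map (homOfLE hV).op s = 0) :
    (prs M).germ U x (hV hx) s = 0 := by
  have h1 := TopCat.Presheaf.germ_res_apply (prs M) (homOfLE hV) x hx s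
  rw [← h1, h, map_zero]

lemma zeroAt_iff {M : Shf X} {x : X} : ZeroAt M x ↔ Subsingleton ((prs M).stalk x) := by
  constructor
  · intro h
    refine subsingleton_of_forall_eq 0 (fun t => ?_)
    obtain ⟨U, hx, s, rfl⟩ := TopCat.Presheaf.exists_germ_eq (prs M) t
    obtain ⟨V, hV, hxV, h0⟩ := h U hx s
    exact germ_eq_zero hV hxV h0
  · intro h U hx s
    exact exists_res_eq_zero hx (Subsingleton.elim _ _)

lemma inj_of_mono {F G : Shf X} (φ : F ⟶ G) [Mono φ] {U : Opens X} {f : F.obj.obj (op U)}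
    (h : φ.hom.app (op U) f = 0) : f = 0 := by
  have h1 : Mono φ.hom := (Sheaf.Hom.mono_iff_presheaf_mono _ _ _).mp inferInstance
  have h2 : Mono (φ.hom.app (op U)) := (NatTrans.mono_iff_mono_app _).mp h1 (op U)
  have h3 := (AddCommGrpCat.mono_iff_injective _).mp h2
  exact h3 (by rw [h, map_zero])

lemma locSurj_of_epi {F G : Shf X} (φ : F ⟶ G) [Epi φ] {U : Opens X} (g : G.obj.obj (op U))
    {x : X} (hx : x ∈ U) : ∃ (V : Opens X) (hV : V ≤ U), x ∈ V ∧ ∃ f : F.obj.obj (op V),
      φ.hom.app (op V) f = G.obj.map (homOfLE hV).op g := by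
  have h1 := (TopCat.Sheaf.isLocallySurjective_iff_epi (X := X) (C := AddCommGrpCat.{u})
    (F := F) (G := G) φ).mpr ‹Epi φ›
  rw [TopCat.Presheaf.isLocallySurjective_iff] at h1
  obtain ⟨V, hV, ⟨f, hf⟩, hxV⟩ := h1 U g x hx
  exact ⟨V, hV, hxV, f, hf⟩

lemma lift_of_exact {S : ShortComplex (Shf X)} (hS : S.ShortExact) {U : Opens X}
    (g : S.X₂.obj.obj (op U)) (h : S.g.hom.app (op U) g = 0) :
    ∃ f : S.X₁.obj.obj (op U), S.f.hom.app (op U) f = g :=
  TopCat.Sheaf.sections_exact_of_left_exact (X := X) (S := S) hS.exact hS.mono_f g h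

lemma map_app {F G : Shf X} (φ : F ⟶ G) {U V : Opens X} (hV : V ≤ U) (f : F.obj.obj (op U)) :
    φ.hom.app (op V) (F.obj.map (homOfLE hV).op f) =
      G.obj.map (homOfLE hV).op (φ.hom.app (op U) f) :=
  ConcreteCategory.congr_hom (φ.hom.naturality (homOfLE hV).op) f

lemma comp_app_eq_zero {F G H : Shf X} {φ : F ⟶ G} {ψ : G ⟶ H} (h : φ ≫ ψ = 0) {U : Opens X}
    (f : F.obj.obj (op U)) : ψ.hom.app (op U) (φ.hom.app (op U) f) = 0 := by
  have h1 : (φ ≫ ψ).hom.app (op U) f = (0 : F ⟶ H).hom.app (op U) f := by rw [h]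
  exact h1

lemma mem_finset_inf {κ : Type*} (T : Finset κ) (W : κ → Opens X) {x : X}
    (h : ∀ i ∈ T, x ∈ W i) : x ∈ T.inf W := by
  classical
  induction T using Finset.induction_on with
  | empty => trivial
  | insert a T _ ih =>
    rw [Finset.inf_insert]
    exact ⟨h a (Finset.mem_insert_self _ _), ih (fun i hi => h i (Finset.mem_insert_of_mem hi))⟩

/-! ### The points of maximal dimension in a locally closed set -/

lemma finite_of_maximal [NoetherianSpace X] [QuasiSober X] {δ : X → ℕ}
    (hδ : ∀ x y : X, x ⤳ y → x ≠ y → δ y < δ x) {m : ℕ} {Z : Set X} {U : Opens X}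
    (hZU : closure Z ∩ U ⊆ Z) (hZ : ∀ z ∈ Z, δ z ≤ m) : {y ∈ Z ∩ U | δ y = m}.Finite := by
  obtain ⟨S, hSf, hSc, hSi, hZS⟩ := NoetherianSpace.exists_finite_set_isClosed_irreducible
    (isClosed_closure (s := Z))
  refine (hSf.biUnion (t := fun t => {y | δ y = m ∧ IsGenericPoint y t}) (fun t _ => ?_)).subset ?_
  · refine Set.Subsingleton.finite ?_
    rintro y ⟨hy, hyt⟩ z ⟨hz, hzt⟩
    by_contra hne
    have h1 : y ⤳ z := (hyt.specializes_iff_mem).mpr hzt.mem
    have h2 := hδ y z h1 hne
    omega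
  · rintro y ⟨⟨hyZ, hyU⟩, hy⟩
    have hyc : y ∈ closure Z := subset_closure hyZ
    rw [hZS] at hyc
    obtain ⟨t, ht, hyt⟩ := hyc
    have hgen : ∃ z, IsGenericPoint z t := by
      have h1 := (hSi t ht).isGenericPoint_genericPoint (hSc t ht)
      exact ⟨_, h1⟩
    obtain ⟨z, hz⟩ := hgen
    have hzy : z ⤳ y := hz.specializes_iff_mem.mpr hyt
    have hzZ : z ∈ Z := by
      refine hZU ⟨?_, hzy.mem_open U.2 hyU⟩
      rw [hZS]
      exact ⟨t, ht, hz.mem⟩
    have hzy' : z = y := by
      by_contra hne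
      have h2 := hδ z y hzy hne
      have h3 := hZ z hzZ
      omega
    refine Set.mem_biUnion ht ⟨hy, ?_⟩
    rw [← hzy']
    exact hz

/-! ### The map to the germs at the points of maximal dimension -/

section toE

variable {δ : X → ℕ} (hδ : ∀ x y : X, x ⤳ y → x ≠ y → δ y < δ x) {m : ℕ} (M : Shf X)
    (hM : ∀ x, m < δ x → ZeroAt M x)

/-- The germ at `y`, zero if `y` is not in `U`. -/
def germ' (U : Opens X) (y : X) : (M.obj.obj (op U) : Type u) →+ ((prs M).stalk y : Type u) := by
  classical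
  exact if h : y ∈ U then ((prs M).germ U y h).hom else 0

lemma germ'_pos {U : Opens X} {y : X} (h : y ∈ U) (s : M.obj.obj (op U)) :
    germ' M U y s = (prs M).germ U y h s := by
  unfold germ'
  rw [dif_pos h]

lemma germ'_neg {U : Opens X} {y : X} (h : y ∉ U) (s : M.obj.obj (op U)) :
    germ' M U y s = 0 := by
  unfold germ'
  rw [dif_neg h]
  rfl

variable [NoetherianSpace X] [QuasiSober X]

include hδ hM in
lemma germ'_finite (U : Opens X) (s : M.obj.obj (op U)) :
    {y : {y : X // δ y = m} | germ' M U y.1 s ≠ 0}.Finite := by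
  have h1 : {y ∈ {y : X | germ' M U y s ≠ 0} ∩ U | δ y = m}.Finite := by
    refine finite_of_maximal hδ ?_ ?_
    · rintro y ⟨hyc, hyU⟩ h0
      rw [germ'_pos M hyU] at h0
      obtain ⟨V, hV, hyV, hV0⟩ := exists_res_eq_zero hyU h0
      rw [mem_closure_iff] at hyc
      obtain ⟨z, hzV, hz⟩ := hyc V V.2 hyV
      apply hz
      rw [germ'_pos M (hV hzV)]
      exact germ_eq_zero hV hzV hV0
    · intro z hz
      by_contra hlt
      apply hz
      by_cases hzU : z ∈ U
      · rw [germ'_pos M hzU]
        have := zeroAt_iff.mp (hM z (by omega))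
        exact Subsingleton.elim _ _
      · exact germ'_neg M hzU s
  refine Set.Finite.of_finite_image (f := Subtype.val) (h1.subset ?_)
    Subtype.val_injective.injOn
  rintro y ⟨z, hz, rfl⟩
  refine ⟨⟨hz, ?_⟩, z.2⟩
  by_contra hzU
  exact hz (germ'_neg M hzU s)

/-- The sheaf of families of germs at the points of dimension `m`. -/
abbrev EM (δ : X → ℕ) (m : ℕ) (M : Shf X) : FSh (fun y : {y : X // δ y = m} => y.1)
    (fun y => ((prs M).stalk y.1 : Type u)) := E _ _

/-- The map to the germs. -/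
def toE : M ⟶ (EM δ m M).sheaf :=
  ⟨{ app := fun U => AddCommGrpCat.ofHom ((famHom (fun y => germ' M U.unop y.1)
        (germ'_finite hδ M hM U.unop)).codRestrict ((EM δ m M).sec U.unop) (fun s y hy => by
          rw [famHom_apply]
          exact germ'_neg M hy s))
     naturality := fun {U V} g => by
       ext s
       refine Subtype.ext (DFinsupp.ext (fun y => ?_))
       change famHom (fun y => germ' M V.unop y.1) (germ'_finite hδ M hM V.unop)
         (M.obj.map g s) y = keep _ _ V.unop (famHom (fun y => germ' M U.unop y.1)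
        (germ'_finite hδ M hM U.unop) s) y
       by_cases hy : y.1 ∈ V.unop
       · rw [keep_apply_pos (fun y : {y : X // δ y = m} => y.1) _ hy, famHom_apply, famHom_apply,
           germ'_pos M hy, germ'_pos M (leOfHom g.unop hy)]
         exact TopCat.Presheaf.germ_res_apply (prs M) g.unop y.1 hy s
       · rw [keep_apply_neg (fun y : {y : X // δ y = m} => y.1) _ hy, famHom_apply, germ'_neg M hy] }⟩

lemma toE_apply {U : Opens X} (s : M.obj.obj (op U)) (y : {y : X // δ y = m}) (hy : y.1 ∈ U) :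
    (show (EM δ m M).sec U from (toE hδ M hM).hom.app (op U) s).1 y =
      (prs M).germ U y.1 hy s := by
  change famHom (fun y => germ' M U y.1) (germ'_finite hδ M hM U) s y = _
  rw [famHom_apply, germ'_pos M hy]

omit [NoetherianSpace X] [QuasiSober X] in
include hδ in
/-- Families of germs at points of dimension `m` have only one component at a point of
dimension `m`, and none at points of larger dimension. -/
lemma eq_of_specializes {x : X} (hx : m ≤ δ x) {y : {y : X // δ y = m}} (h : y.1 ⤳ x) :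
    y.1 = x := by
  by_contra hne
  have h1 := hδ y.1 x h hne
  have h2 := y.2
  omega

/-- The kernel vanishes at all points of dimension at least `m`. -/
lemma zeroAt_kernel {x : X} (hx : m ≤ δ x) : ZeroAt (Limits.kernel (toE hδ M hM)) x := by
  intro U hxU k
  let s : M.obj.obj (op U) := (Limits.kernel.ι (toE hδ M hM)).hom.app (op U) k
  have hs : (toE hδ M hM).hom.app (op U) s = 0 :=
    comp_app_eq_zero (Limits.kernel.condition (toE hδ M hM)) k
  have h1 : ∃ (V : Opens X) (hV : V ≤ U), x ∈ V ∧ M.obj.map (homOfLE hV).op s = 0 := by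
    rcases hx.eq_or_lt with h | h
    · refine exists_res_eq_zero hxU ?_
      rw [← toE_apply hδ M hM s ⟨x, h.symm⟩ hxU]
      exact congrArg (fun t : (EM δ m M).sec U => t.1 ⟨x, h.symm⟩) hs
    · exact hM x h U hxU s
  obtain ⟨V, hV, hxV, h0⟩ := h1
  refine ⟨V, hV, hxV, ?_⟩
  refine inj_of_mono (Limits.kernel.ι (toE hδ M hM)) ?_
  rw [map_app]
  exact h0

/-- A quotient of the sheaf of germs in which all sections of `M` die is zero at all points of
dimension at least `m`. -/
lemma zeroAt_cokernel {C : Shf X} (π : (EM δ m M).sheaf ⟶ C) [Epi π]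
    (hπ : toE hδ M hM ≫ π = 0) {x : X} (hx : m ≤ δ x) : ZeroAt C x := by
  intro U hxU c
  obtain ⟨V, hV, hxV, e, he⟩ := locSurj_of_epi π c hxU
  let e' : (EM δ m M).sec V := e
  have key : ∃ (W : Opens X) (hW : W ≤ V), x ∈ W ∧
      π.hom.app (op W) ((EM δ m M).sheaf.obj.map (homOfLE hW).op e) = 0 := by
    rcases hx.eq_or_lt with h | h
    · obtain ⟨W', hW', hxW', s, hs⟩ := TopCat.Presheaf.exists_le_germ_eq (prs M)
        (e'.1 ⟨x, h.symm⟩) hxV
      let f : (EM δ m M).sec W' := (toE hδ M hM).hom.app (op W') s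
      have hgen : gen (fun y : {y : X // δ y = m} => y.1) _ x f.1 =
          gen (fun y : {y : X // δ y = m} => y.1) _ x e'.1 := by
        refine DFinsupp.ext (fun y => ?_)
        by_cases hy : y.1 ⤳ x
        · rw [gen_apply_pos (fun y : {y : X // δ y = m} => y.1) _ hy,
            gen_apply_pos (fun y : {y : X // δ y = m} => y.1) _ hy]
          have hyx : y = ⟨x, h.symm⟩ := Subtype.ext (eq_of_specializes hδ hx hy)
          subst hyx
          rw [← hs]
          exact toE_apply hδ M hM s ⟨x, h.symm⟩ hxW'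
        · rw [gen_apply_neg (fun y : {y : X // δ y = m} => y.1) _ hy,
            gen_apply_neg (fun y : {y : X // δ y = m} => y.1) _ hy]
      obtain ⟨W, hxW, hWW', hW⟩ := exists_keep_eq (fun y : {y : X // δ y = m} => y.1) hxW' hgen
      refine ⟨W, hWW'.trans hW', hxW, ?_⟩
      have h1 : (EM δ m M).sheaf.obj.map (homOfLE (hWW'.trans hW')).op e =
          (EM δ m M).sheaf.obj.map (homOfLE hWW').op ((toE hδ M hM).hom.app (op W') s) :=
        Subtype.ext hW.symm
      rw [h1, map_app, comp_app_eq_zero hπ, map_zero]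
    · have hgen : gen (fun y : {y : X // δ y = m} => y.1) _ x e'.1 =
          gen (fun y : {y : X // δ y = m} => y.1) _ x 0 := by
        refine DFinsupp.ext (fun y => ?_)
        by_cases hy : y.1 ⤳ x
        · have h1 := eq_of_specializes hδ hx hy
          have h2 := y.2
          rw [h1] at h2
          omega
        · rw [gen_apply_neg (fun y : {y : X // δ y = m} => y.1) _ hy,
            gen_apply_neg (fun y : {y : X // δ y = m} => y.1) _ hy]
      obtain ⟨W, hxW, hWV, hW⟩ := exists_keep_eq (fun y : {y : X // δ y = m} => y.1) hxV hgen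
      refine ⟨W, hWV, hxW, ?_⟩
      have h1 : (EM δ m M).sheaf.obj.map (homOfLE hWV).op e = 0 := by
        refine Subtype.ext ?_
        rw [map_zero] at hW
        exact hW
      rw [h1, map_zero]
  obtain ⟨W, hW, hxW, h0⟩ := key
  refine ⟨W, hW.trans hV, hxW, ?_⟩
  rw [map_app, he] at h0
  rw [← h0, ← ConcreteCategory.comp_apply, ← Functor.map_comp]
  rfl

end toE

/-- DIM: a sheaf which is zero at all points of dimension at least `m` has no cohomology in
degrees at least `m`. -/
theorem dim_vanishing [NoetherianSpace X] [QuasiSober X] (hF : T_FLASQUE.{u}) {δ : X → ℕ}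
    (hδ : ∀ x y : X, x ⤳ y → x ≠ y → δ y < δ x) (m : ℕ) :
    ∀ M : Shf X, (∀ x, m ≤ δ x → ZeroAt M x) → ∀ n, m ≤ n → Subsingleton (Sheaf.H M n) := by
  induction m with
  | zero =>
    intro M hM n _
    exact H_of_stalk_zero M (fun x => zeroAt_iff.mp (hM x (Nat.zero_le _))) n
  | succ m ih =>
    intro M hM n hn
    obtain ⟨n, rfl⟩ : ∃ k, n = k + 1 := ⟨n - 1, by omega⟩
    have hM' : ∀ x, m < δ x → ZeroAt M x := fun x hx => hM x hx
    let φ := toE hδ M hM'
    let S1 : ShortComplex (Shf X) := ShortComplex.mk (Limits.kernel.ι φ)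
      (Limits.cokernel.π (Limits.kernel.ι φ)) (Limits.cokernel.condition _)
    have hS1 : S1.ShortExact := ShortComplex.ShortExact.mk' (ShortComplex.exact_cokernel _)
      (by dsimp [S1]; infer_instance) (by dsimp [S1]; infer_instance)
    let S2 : ShortComplex (Shf X) := ShortComplex.mk (Abelian.factorThruCoimage φ)
      (Limits.cokernel.π (Abelian.factorThruCoimage φ)) (Limits.cokernel.condition _)
    have hS2 : S2.ShortExact := ShortComplex.ShortExact.mk' (ShortComplex.exact_cokernel _)
      (by dsimp [S2]; infer_instance) (by dsimp [S2]; infer_instance)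
    have hK := ih (Limits.kernel φ) (fun x hx => zeroAt_kernel hδ M hM' hx) (n + 1) (by omega)
    have hC := ih (Limits.cokernel (Abelian.factorThruCoimage φ)) (fun x hx =>
      zeroAt_cokernel hδ M hM' (Limits.cokernel.π (Abelian.factorThruCoimage φ)) (by
        have h1 : φ ≫ Limits.cokernel.π (Abelian.factorThruCoimage φ) =
            (Limits.cokernel.π (Limits.kernel.ι φ) ≫ Abelian.factorThruCoimage φ) ≫
              Limits.cokernel.π (Abelian.factorThruCoimage φ) :=
          congrArg (fun t => t ≫ Limits.cokernel.π (Abelian.factorThruCoimage φ))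
            (Abelian.coimage.fac φ).symm
        rw [Category.assoc, Limits.cokernel.condition, Limits.comp_zero] at h1
        exact h1) hx) n (by omega)
    have hI : Subsingleton (Sheaf.H S2.X₁ (n + 1)) :=
      H_left hS2 hC (hF X _ n (isFlasque_E _ _))
    exact H_mid hS1 hK hI

/-- DIM+: a sheaf which is zero at all points of dimension more than `m`, and such that all germs
at the points of dimension `m` come independently from germs at specializations, has no
cohomology in degrees at least `m`, except in degree zero. -/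
theorem dim_plus [NoetherianSpace X] [QuasiSober X] (hF : T_FLASQUE.{u}) {δ : X → ℕ}
    (hδ : ∀ x y : X, x ⤳ y → x ≠ y → δ y < δ x) (m : ℕ) (M : Shf X)
    (hM : ∀ x, m < δ x → ZeroAt M x)
    (hs : ∀ (x y0 : X), y0 ⤳ x → δ y0 = m → ∀ t : (prs M).stalk y0,
      ∃ (W : Opens X) (hW : x ∈ W) (r : M.obj.obj (op W)),
        (∀ h : y0 ∈ W, (prs M).germ W y0 h r = t) ∧
        ∀ (y : X) (hy : y ⤳ x), δ y = m → y ≠ y0 →
          (prs M).germ W y (hy.mem_open W.2 hW) r = 0) (n : ℕ) (hn : m ≤ n + 1) :
    Subsingleton (Sheaf.H M (n + 1)) := by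
  classical
  let φ := toE hδ M hM
  have hepi : Epi φ := by
    refine epi_of_locally_surjective φ ?_
    intro U e x hx
    let e' : (EM δ m M).sec U := e
    have hex : ∀ y : {y : X // δ y = m}, ∃ (W : Opens X) (hW : x ∈ W) (r : M.obj.obj (op W)),
        y.1 ⤳ x → ((∀ h : y.1 ∈ W, (prs M).germ W y.1 h r = e'.1 y) ∧
        ∀ (z : X) (hz : z ⤳ x), δ z = m → z ≠ y.1 →
          (prs M).germ W z (hz.mem_open W.2 hW) r = 0) := by
      intro y
      by_cases hy : y.1 ⤳ x
      · obtain ⟨W, hW, r, h1, h2⟩ := hs x y.1 hy y.2 (e'.1 y)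
        exact ⟨W, hW, r, fun _ => ⟨h1, h2⟩⟩
      · exact ⟨⊤, trivial, 0, fun h => absurd h hy⟩
    choose W hW r hr using hex
    let T : Finset {y : X // δ y = m} := e'.1.support.filter (fun y => y.1 ⤳ x)
    let V : Opens X := U ⊓ T.inf W
    have hVU : V ≤ U := inf_le_left
    have hxV : x ∈ V := by
      exact ⟨hx, mem_finset_inf T W (fun i _ => hW i)⟩
    have hVW : ∀ y ∈ T, V ≤ W y := fun y hy => inf_le_right.trans (Finset.inf_le hy)
    let s : M.obj.obj (op V) := ∑ y ∈ T.attach, M.obj.map (homOfLE (hVW y.1 y.2)).op (r y.1)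
    let f : (EM δ m M).sec V := φ.hom.app (op V) s
    have hgerm : ∀ (z : {y : X // δ y = m}) (hz : z.1 ⤳ x),
        (prs M).germ V z.1 (hz.mem_open V.2 hxV) s = e'.1 z := by
      intro z hz
      have h1 : (prs M).germ V z.1 (hz.mem_open V.2 hxV) s = ∑ y ∈ T.attach,
          (prs M).germ (W y.1) z.1 (hz.mem_open (W y.1).2 (hW y.1)) (r y.1) := by
        change (prs M).germ V z.1 (hz.mem_open V.2 hxV) (∑ y ∈ T.attach, _) = _
        rw [map_sum]
        refine Finset.sum_congr rfl (fun y _ => ?_)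
        exact TopCat.Presheaf.germ_res_apply (prs M) (homOfLE (hVW y.1 y.2)) z.1 _ (r y.1)
      rw [h1, Finset.sum_attach T (fun y => (prs M).germ (W y) z.1
        (hz.mem_open (W y).2 (hW y)) (r y))]
      by_cases hzT : z ∈ T
      · rw [Finset.sum_eq_single z]
        · exact (hr z hz).1 _
        · intro y hy hyz
          exact (hr y (Finset.mem_filter.mp hy).2).2 z.1 hz z.2 (fun h => hyz (Subtype.ext h).symm)
        · exact fun h => absurd hzT h
      · have h2 : e'.1 z = 0 := by
          by_contra hne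
          exact hzT (Finset.mem_filter.mpr ⟨DFinsupp.mem_support_iff.mpr hne, hz⟩)
        rw [h2]
        refine Finset.sum_eq_zero (fun y hy => ?_)
        refine (hr y (Finset.mem_filter.mp hy).2).2 z.1 hz z.2 (fun h => hzT ?_)
        have h3 : z = y := Subtype.ext h
        rw [h3]
        exact hy
    have hgen : gen (fun y : {y : X // δ y = m} => y.1) _ x f.1 =
        gen (fun y : {y : X // δ y = m} => y.1) _ x e'.1 := by
      refine DFinsupp.ext (fun z => ?_)
      by_cases hz : z.1 ⤳ x
      · rw [gen_apply_pos (fun y : {y : X // δ y = m} => y.1) _ hz,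
          gen_apply_pos (fun y : {y : X // δ y = m} => y.1) _ hz, ← hgerm z hz]
        exact toE_apply hδ M hM s z (hz.mem_open V.2 hxV)
      · rw [gen_apply_neg (fun y : {y : X // δ y = m} => y.1) _ hz,
          gen_apply_neg (fun y : {y : X // δ y = m} => y.1) _ hz]
    obtain ⟨V', hxV', hV'V, hV'⟩ := exists_keep_eq (fun y : {y : X // δ y = m} => y.1) hxV hgen
    refine ⟨V', hV'V.trans hVU, hxV', M.obj.map (homOfLE hV'V).op s, ?_⟩
    rw [map_app]
    exact Subtype.ext hV'
  let S1 : ShortComplex (Shf X) := ShortComplex.mk (Limits.kernel.ι φ) φ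
    (Limits.kernel.condition φ)
  have hS1 : S1.ShortExact := ShortComplex.ShortExact.mk' (ShortComplex.exact_kernel _)
    (by dsimp [S1]; infer_instance) (by dsimp [S1]; infer_instance)
  exact H_mid hS1 (dim_vanishing hF hδ m (Limits.kernel φ)
    (fun x hx => zeroAt_kernel hδ M hM hx) (n + 1) hn) (hF X _ n (isFlasque_E _ _))

end

end Pool.Agent.H84.KEW
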