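import Pool.Agent.H84.KEW.Coh

/-! Flasque quotients of sheaves of finitely supported families. -/

open CategoryTheory TopologicalSpace Opposite Abelian

universe u

namespace Pool.Agent.H84.KEW

noncomputable section

/-- A homomorphism to finitely supported families given by its components. -/
def famHom {M : Type u} [AddCommGroup M] {κ : Type u} {B : κ → Type u} [∀ k, AddCommGroup (B k)]
    (m : ∀ k, M →+ B k) (hfin : ∀ c, {k | m k c ≠ 0}.Finite) : M →+ (Π₀ k, B k) := by
  classical
  exact
  { toFun := fun c => DFinsupp.mk (hfin c).toFinset (fun k => m k c)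
    map_zero' := by
      refine DFinsupp.ext (fun k => ?_)
      rw [DFinsupp.mk_apply]
      split_ifs <;> simp
    map_add' := by
      intro a b
      have key : ∀ c k, (DFinsupp.mk (hfin c).toFinset (fun k => m k c) : Π₀ k, B k) k = m k c := by
        intro c k
        rw [DFinsupp.mk_apply]
        split_ifs with h
        · rfl
        · rw [Set.Finite.mem_toFinset, Set.mem_ofPred_eq, not_not] at h
          exact h.symm
      refine DFinsupp.ext (fun k => ?_)
      rw [DFinsupp.add_apply, key, key, key, map_add] }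

lemma famHom_apply {M : Type u} [AddCommGroup M] {κ : Type u} {B : κ → Type u}
    [∀ k, AddCommGroup (B k)] (m : ∀ k, M →+ B k) (hfin : ∀ c, {k | m k c ≠ 0}.Finite) (c : M)
    (k : κ) : famHom m hfin c k = m k c := by
  classical
  change (DFinsupp.mk (hfin c).toFinset (fun k => m k c) : Π₀ k, B k) k = m k c
  rw [DFinsupp.mk_apply]
  split_ifs with h
  · rfl
  · rw [Set.Finite.mem_toFinset, Set.mem_ofPred_eq, not_not] at h
    exact h.symm

variable {X : TopCat.{u}} {ι : Type u} {p : ι → X} {A : ι → Type u}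
  [∀ i, AddCommGroup (A i)]

section flq

variable (S : X → AddSubgroup (Π₀ i, A i))

/-- The quotient group at `y`. -/
abbrev QS (y : X) : Type u := (Π₀ i, A i) ⧸ (AddSubgroup.comap (gen p A y) (S y))

variable (p) in
/-- The map to the quotients. -/
def qmap (hfin : ∀ f : Π₀ i, A i, {y | gen p A y f ∉ S y}.Finite) :
    (Π₀ i, A i) →+ (Π₀ y : X, QS (p := p) S y) :=
  famHom (fun y => QuotientAddGroup.mk' _) (fun c => (hfin c).subset (fun y hy h => hy (by
    rw [QuotientAddGroup.mk'_apply, QuotientAddGroup.eq_zero_iff]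
    exact h)))

lemma qmap_apply (hfin : ∀ f : Π₀ i, A i, {y | gen p A y f ∉ S y}.Finite) (c : Π₀ i, A i)
    (y : X) : qmap p S hfin c y = QuotientAddGroup.mk' _ c := famHom_apply _ _ _ _

lemma qmap_apply_eq_zero (hfin : ∀ f : Π₀ i, A i, {y | gen p A y f ∉ S y}.Finite)
    (c : Π₀ i, A i) (y : X) : qmap p S hfin c y = 0 ↔ gen p A y c ∈ S y := by
  rw [qmap_apply, QuotientAddGroup.mk'_apply, QuotientAddGroup.eq_zero_iff]
  rfl

lemma qmap_local (hfin : ∀ f : Π₀ i, A i, {y | gen p A y f ∉ S y}.Finite) :
    IsLocalHom (q := fun y : X => y) p (qmap p S hfin) := by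
  intro f y h
  rw [qmap_apply_eq_zero]
  have : gen p A y f = 0 := by
    refine DFinsupp.ext (fun i => ?_)
    by_cases hi : p i ⤳ y
    · rw [gen_apply_pos p _ hi, h i hi]; rfl
    · rw [gen_apply_neg p _ hi]; rfl
  rw [this]
  exact zero_mem _

variable [NoetherianSpace X]

/-- The sequence `0 → families with conditions → all families → quotients → 0`. -/
def flqSeq (hfin : ∀ f : Π₀ i, A i, {y | gen p A y f ∉ S y}.Finite) : ShortComplex (Shf X) where
  X₁ := (stalkwise p A S).sheaf
  X₂ := (E p A).sheaf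
  X₃ := (E (fun y : X => y) (QS (p := p) S)).sheaf
  f := (stalkwise p A S).incl (E p A) (fun _ _ hf => hf.1)
  g := mapE (qmap p S hfin) (qmap_local S hfin)
  zero := by
    ext U f
    refine Subtype.ext (DFinsupp.ext (fun y => ?_))
    let f' : (stalkwise p A S).sec U.unop := f
    change keep (fun y : X => y) (QS (p := p) S) U.unop (qmap p S hfin f'.1) y = 0
    by_cases hy : y ∈ U.unop
    · rw [keep_apply_pos (fun y : X => y) _ hy, qmap_apply_eq_zero]
      exact f'.2.2 y hy
    · rw [keep_apply_neg (fun y : X => y) _ hy]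

theorem flqSeq_shortExact (hfin : ∀ f : Π₀ i, A i, {y | gen p A y f ∉ S y}.Finite)
    (honto : ∀ (x y0 : X), y0 ⤳ x → ∀ c : Π₀ i, A i, ∃ c' : Π₀ i, A i,
      gen p A y0 (c' - c) ∈ S y0 ∧ ∀ y, y ⤳ x → y ≠ y0 → gen p A y c' ∈ S y) :
    (flqSeq S hfin).ShortExact := by
  classical
  refine shortExact_of_local _ ?_ ?_ ?_
  · intro U f hf
    exact Subtype.ext (congrArg Subtype.val hf :)
  · intro U g hg x hx
    let g' : (E p A).sec U := g
    have h1 : keep (fun y : X => y) (QS (p := p) S) U (qmap p S hfin g'.1) = 0 :=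
      congrArg Subtype.val hg
    refine ⟨U, le_rfl, hx, (⟨g'.1, g'.2, fun y hy => ?_⟩ : (stalkwise p A S).sec U), ?_⟩
    · rw [← qmap_apply_eq_zero S hfin]
      have h2 := congrArg (fun t => t y) h1
      rwa [keep_apply_pos (fun y : X => y) _ hy] at h2
    · exact Subtype.ext (keep_eq_self p g'.2).symm
  · intro U h x hx
    let h' : (E (fun y : X => y) (QS (p := p) S)).sec U := h
    -- representatives
    have hrep : ∀ y : X, ∃ c : Π₀ i, A i, QuotientAddGroup.mk' _ c = h'.1 y := fun y =>
      QuotientAddGroup.mk'_surjective _ _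
    choose c hc using hrep
    have hex : ∀ y : X, ∃ c' : Π₀ i, A i, y ⤳ x → (gen p A y (c' - c y) ∈ S y ∧
        ∀ z, z ⤳ x → z ≠ y → gen p A z c' ∈ S z) := by
      intro y
      by_cases hy : y ⤳ x
      · obtain ⟨c', h1, h2⟩ := honto x y hy (c y)
        exact ⟨c', fun _ => ⟨h1, h2⟩⟩
      · exact ⟨0, fun h => absurd h hy⟩
    choose c' hc' using hex
    let T : Finset X := h'.1.support.filter (fun y => y ⤳ x)
    let s : Π₀ i, A i := ∑ y ∈ T, c' y
    have key : gen (fun y : X => y) (QS (p := p) S) x (qmap p S hfin s) =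
        gen (fun y : X => y) (QS (p := p) S) x h'.1 := by
      refine DFinsupp.ext (fun z => ?_)
      by_cases hz : z ⤳ x
      · rw [gen_apply_pos (fun y : X => y) _ hz, gen_apply_pos (fun y : X => y) _ hz]
        by_cases hzT : z ∈ T
        · have h1 : s = c' z + ∑ y ∈ T.erase z, c' y := (Finset.add_sum_erase _ _ hzT).symm
          rw [← hc z, ← sub_eq_zero, qmap_apply, ← map_sub, ← qmap_apply (p := p) S hfin,
            qmap_apply_eq_zero, h1, add_sub_right_comm, map_add]
          refine add_mem (hc' z hz).1 ?_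
          rw [map_sum]
          refine sum_mem (fun y hy => ?_)
          have hyT := Finset.mem_of_mem_erase hy
          exact (hc' y (Finset.mem_filter.mp hyT).2).2 z hz (Finset.ne_of_mem_erase hy).symm
        · have h1 : h'.1 z = 0 := by
            by_contra hne
            exact hzT (Finset.mem_filter.mpr ⟨DFinsupp.mem_support_iff.mpr hne, hz⟩)
          rw [h1, qmap_apply_eq_zero, map_sum]
          refine sum_mem (fun y hy => ?_)
          refine (hc' y (Finset.mem_filter.mp hy).2).2 z hz ?_
          rintro rfl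
          exact hzT hy
      · rw [gen_apply_neg (fun y : X => y) _ hz, gen_apply_neg (fun y : X => y) _ hz]
    obtain ⟨V, hxV, hVU, hV⟩ := exists_keep_eq (fun y : X => y) hx key
    refine ⟨V, hVU, hxV, (⟨keep p A V s, fun i hi => keep_apply_neg p _ hi⟩ : (E p A).sec V), ?_⟩
    refine Subtype.ext ?_
    change keep (fun y : X => y) (QS (p := p) S) V (qmap p S hfin (keep p A V s)) =
      keep (fun y : X => y) (QS (p := p) S) V h'.1
    rw [keep_comp_keep (qmap_local S hfin), hV]

/-- FLQ: the sheaf of families with conditions has no cohomology in degrees at least two. -/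
theorem flq (hF : T_FLASQUE.{u}) (hfin : ∀ f : Π₀ i, A i, {y | gen p A y f ∉ S y}.Finite)
    (honto : ∀ (x y0 : X), y0 ⤳ x → ∀ c : Π₀ i, A i, ∃ c' : Π₀ i, A i,
      gen p A y0 (c' - c) ∈ S y0 ∧ ∀ y, y ⤳ x → y ≠ y0 → gen p A y c' ∈ S y) (n : ℕ) :
    Subsingleton (Sheaf.H (stalkwise p A S).sheaf (n + 2)) :=
  H_left (flqSeq_shortExact S hfin honto) (n := n + 1)
    (hF X _ n (isFlasque_E _ _)) (hF X _ (n + 1) (isFlasque_E _ _))

end flq

end

end Pool.Agent.H84.KEW
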