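import Pool.Agent.H84.KEW.Defs

/-! Germs of sections of sheaves of finitely supported families. -/

open CategoryTheory TopologicalSpace Opposite

universe u

namespace Pool.Agent.H84.KEW

noncomputable section

variable {X : TopCat.{u}} {ι : Type u} (p : ι → X) {A : ι → Type u} [∀ i, AddCommGroup (A i)]

lemma keep_keep {U V : Opens X} (h : V ≤ U) (f : Π₀ i, A i) :
    keep p A V (keep p A U f) = keep p A V f := by
  refine DFinsupp.ext (fun i => ?_)
  by_cases hi : p i ∈ V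
  · rw [keep_apply_pos p _ hi, keep_apply_pos p _ hi, keep_apply_pos p _ (h hi)]
  · rw [keep_apply_neg p _ hi, keep_apply_neg p _ hi]

lemma gen_keep {U : Opens X} {x : X} (h : x ∈ U) (f : Π₀ i, A i) :
    gen p A x (keep p A U f) = gen p A x f := by
  refine DFinsupp.ext (fun i => ?_)
  by_cases hi : p i ⤳ x
  · rw [gen_apply_pos p _ hi, gen_apply_pos p _ hi, keep_apply_pos p _ (hi.mem_open U.2 h)]
  · rw [gen_apply_neg p _ hi, gen_apply_neg p _ hi]

lemma gen_gen {x y : X} (h : y ⤳ x) (f : Π₀ i, A i) :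
    gen p A y (gen p A x f) = gen p A y f := by
  refine DFinsupp.ext (fun i => ?_)
  by_cases hi : p i ⤳ y
  · rw [gen_apply_pos p _ hi, gen_apply_pos p _ hi, gen_apply_pos p _ (hi.trans h)]
  · rw [gen_apply_neg p _ hi, gen_apply_neg p _ hi]

lemma keep_eq_self {U : Opens X} {f : Π₀ i, A i} (h : ∀ i, p i ∉ U → f i = 0) :
    keep p A U f = f := by
  refine DFinsupp.ext (fun i => ?_)
  by_cases hi : p i ∈ U
  · rw [keep_apply_pos p _ hi]
  · rw [keep_apply_neg p _ hi, h i hi]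

/-- Families with the same part at the generizations of `x` agree on a neighbourhood of `x`. -/
lemma exists_keep_eq {U : Opens X} {x : X} (hx : x ∈ U) {f g : Π₀ i, A i}
    (h : gen p A x f = gen p A x g) :
    ∃ V : Opens X, x ∈ V ∧ V ≤ U ∧ keep p A V f = keep p A V g := by
  classical
  let Z : Set X := ⋃ i ∈ (f - g).support, closure {p i}
  have hZ : IsClosed Z := by
    refine Set.Finite.isClosed_biUnion (Finset.finite_toSet _) (fun i _ => isClosed_closure)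
  have hxZ : x ∉ Z := by
    intro hxZ
    simp only [Z, Set.mem_iUnion] at hxZ
    obtain ⟨i, hi, hxi⟩ := hxZ
    have h1 : p i ⤳ x := specializes_iff_mem_closure.mpr hxi
    have h2 := congrArg (fun t => t i) h
    simp only [gen_apply_pos p _ h1] at h2
    exact (DFinsupp.mem_support_iff.mp hi) (by rw [DFinsupp.sub_apply, h2, sub_self])
  refine ⟨⟨Zᶜ, hZ.isOpen_compl⟩ ⊓ U, ⟨hxZ, hx⟩, inf_le_right, ?_⟩
  refine DFinsupp.ext (fun i => ?_)
  by_cases hi : p i ∈ (⟨Zᶜ, hZ.isOpen_compl⟩ ⊓ U : Opens X)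
  · rw [keep_apply_pos p _ hi, keep_apply_pos p _ hi]
    by_contra hne
    have h3 : i ∈ (f - g).support := by
      rw [DFinsupp.mem_support_iff, DFinsupp.sub_apply]
      exact sub_ne_zero.mpr hne
    exact hi.1 (Set.mem_biUnion h3 (subset_closure rfl))
  · rw [keep_apply_neg p _ hi, keep_apply_neg p _ hi]

/-- Remove finitely many points from a neighbourhood. -/
lemma exists_open_avoid {U : Opens X} {x : X} (hx : x ∈ U) {S : Set X} (hS : S.Finite)
    (h : ∀ y ∈ S, ¬ y ⤳ x) : ∃ V : Opens X, x ∈ V ∧ V ≤ U ∧ ∀ y ∈ S, y ∉ V := by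
  have hZ : IsClosed (⋃ y ∈ S, closure ({y} : Set X)) :=
    Set.Finite.isClosed_biUnion hS (fun i _ => isClosed_closure)
  refine ⟨⟨(⋃ y ∈ S, closure ({y} : Set X))ᶜ, hZ.isOpen_compl⟩ ⊓ U, ⟨?_, hx⟩, inf_le_right, ?_⟩
  · intro hxZ
    simp only [Set.mem_iUnion] at hxZ
    obtain ⟨y, hy, hxy⟩ := hxZ
    exact h y hy (specializes_iff_mem_closure.mpr hxy)
  · intro y hy hyV
    exact hyV.1 (Set.mem_biUnion hy (subset_closure rfl))

variable {p}

namespace FSh

variable (F : FSh p A)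

lemma gen_mem_stk {U : Opens X} {x : X} (hx : x ∈ U) {f : Π₀ i, A i} (hf : f ∈ F.sec U) :
    gen p A x f ∈ F.stk x := ⟨U, hx, f, hf, rfl⟩

lemma gen_of_mem_stk {x : X} {f : Π₀ i, A i} (hf : f ∈ F.stk x) : gen p A x f = f := by
  obtain ⟨U, hx, g, hg, rfl⟩ := hf
  exact gen_gen p (specializes_refl x) g

lemma gen_mem_stk_of {x y : X} (h : y ⤳ x) {f : Π₀ i, A i} (hf : f ∈ F.stk x) :
    gen p A y f ∈ F.stk y := by
  obtain ⟨U, hx, g, hg, rfl⟩ := hf
  rw [gen_gen p h]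
  exact F.gen_mem_stk (h.mem_open U.2 hx) hg

/-- If the germ at `x` is in the stalk then on a neighbourhood we have a section. -/
lemma exists_keep_mem {U : Opens X} {x : X} (hx : x ∈ U) {f : Π₀ i, A i}
    (hf : gen p A x f ∈ F.stk x) : ∃ V : Opens X, x ∈ V ∧ V ≤ U ∧ keep p A V f ∈ F.sec V := by
  obtain ⟨V, hxV, g, hg, hfg⟩ := hf
  obtain ⟨W, hxW, hWV, hW⟩ := exists_keep_eq p (U := V ⊓ U) ⟨hxV, hx⟩ hfg.symm
  refine ⟨W, hxW, hWV.trans inf_le_right, ?_⟩
  rw [hW]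
  exact F.res V W (hWV.trans inf_le_left) g hg

lemma mem_sec_iff {U : Opens X} {f : Π₀ i, A i} :
    f ∈ F.sec U ↔ (∀ i, p i ∉ U → f i = 0) ∧ ∀ x ∈ U, gen p A x f ∈ F.stk x :=
  ⟨fun h => ⟨F.supp U f h, fun x hx => F.gen_mem_stk hx h⟩,
    fun h => F.loc U f h.1 (fun x hx => F.exists_keep_mem hx (h.2 x hx))⟩

lemma sec_le_of_stk_le {F G : FSh p A} (h : ∀ x, F.stk x ≤ G.stk x) (U : Opens X) :
    F.sec U ≤ G.sec U := fun f hf => by
  rw [mem_sec_iff] at hf ⊢
  exact ⟨hf.1, fun x hx => h x (hf.2 x hx)⟩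

lemma stk_le_of_sec_le {F G : FSh p A} (h : ∀ U, F.sec U ≤ G.sec U) (x : X) :
    F.stk x ≤ G.stk x := by
  rintro g ⟨U, hx, f, hf, rfl⟩
  exact ⟨U, hx, f, h U hf, rfl⟩

end FSh

lemma mem_stk_E {x : X} {f : Π₀ i, A i} : f ∈ (E p A).stk x ↔ gen p A x f = f :=
  ⟨fun h => (E p A).gen_of_mem_stk h, fun h => ⟨⊤, trivial, f, fun _ hi => absurd trivial hi, h⟩⟩

/-- The stalk of the sheaf of families with conditions at all points. -/
lemma mem_stk_stalkwise {S : X → AddSubgroup (Π₀ i, A i)}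
    (hfin : ∀ f : Π₀ i, A i, {y | gen p A y f ∉ S y}.Finite) {x : X} {f : Π₀ i, A i} :
    f ∈ (stalkwise p A S).stk x ↔ gen p A x f = f ∧ ∀ y, y ⤳ x → gen p A y f ∈ S y := by
  constructor
  · rintro ⟨U, hx, g, hg, rfl⟩
    refine ⟨gen_gen p (specializes_refl x) g, fun y hy => ?_⟩
    rw [gen_gen p hy]
    exact hg.2 y (hy.mem_open U.2 hx)
  · rintro ⟨h1, h2⟩
    obtain ⟨V, hxV, _, hV⟩ := exists_open_avoid (U := ⊤) (x := x) trivial (hfin f)
      (fun y hy hyx => hy (h2 y hyx))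
    refine ⟨V, hxV, keep p A V f, ⟨fun i hi => keep_apply_neg p _ hi, fun y hy => ?_⟩, ?_⟩
    · rw [gen_keep p hy]
      by_contra hne
      exact hV y hne hy
    · rw [gen_keep p hxV, h1]

/-- The stalk of the sheaf of families with conditions on the components. -/
lemma mem_stk_coord {G : X → ∀ i, AddSubgroup (A i)}
    (hopen : ∀ (x : X) (i : ι), p i ⤳ x → ∀ a ∈ G x i, ∃ U : Opens X, x ∈ U ∧
      ∀ y ∈ U, p i ⤳ y → a ∈ G y i) {x : X} {f : Π₀ i, A i} :
    f ∈ (coord p A G).stk x ↔ gen p A x f = f ∧ ∀ i, p i ⤳ x → f i ∈ G x i := by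
  classical
  constructor
  · rintro ⟨U, hx, g, hg, rfl⟩
    refine ⟨gen_gen p (specializes_refl x) g, fun i hi => ?_⟩
    rw [gen_apply_pos p _ hi]
    exact hg.2 x hx i hi
  · rintro ⟨h1, h2⟩
    have h3 : ∀ i, ∃ U : Opens X, x ∈ U ∧ ∀ y ∈ U, p i ⤳ y → f i ∈ G y i := by
      intro i
      by_cases hi : p i ⤳ x
      · exact hopen x i hi (f i) (h2 i hi)
      · refine ⟨⊤, trivial, fun y _ _ => ?_⟩
        have : f i = 0 := by rw [← h1, gen_apply_neg p _ hi]
        rw [this]; exact zero_mem _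
    choose V hxV hV using h3
    refine ⟨f.support.inf V, ?_, keep p A _ f, ⟨fun i hi => keep_apply_neg p _ hi, ?_⟩, ?_⟩
    · rw [← SetLike.mem_coe, Opens.coe_finset_inf]
      simpa using fun i _ => hxV i
    · intro y hy i hi
      rw [keep_apply_pos p _ (hi.mem_open (Opens.isOpen _) hy)]
      by_cases hfi : f i = 0
      · rw [hfi]; exact zero_mem _
      · exact hV i y ((show f.support.inf V ≤ V i from
          Finset.inf_le (DFinsupp.mem_support_iff.mpr hfi)) hy) hi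
    · rw [gen_keep p, h1]
      rw [← SetLike.mem_coe, Opens.coe_finset_inf]
      simpa using fun i _ => hxV i

/-! ### The subsheaf of the families in `F` with image in `G` -/

variable {κ : Type u} {q : κ → X} {B : κ → Type u} [∀ k, AddCommGroup (B k)]

/-- The families in `F` with image in `G`. -/
def FSh.comapInf (F : FSh p A) (G : FSh q B) (φ : (Π₀ i, A i) →+ (Π₀ k, B k))
    (hφ : IsLocalHom p q φ) : FSh p A where
  sec U :=
    { carrier := {f | f ∈ F.sec U ∧ keep q B U (φ f) ∈ G.sec U}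
      zero_mem' := ⟨zero_mem _, by rw [map_zero, map_zero]; exact zero_mem _⟩
      add_mem' := fun {a b} ha hb =>
        ⟨add_mem ha.1 hb.1, by rw [map_add, map_add]; exact add_mem ha.2 hb.2⟩
      neg_mem' := fun {a} ha =>
        ⟨neg_mem ha.1, by rw [map_neg, map_neg]; exact neg_mem ha.2⟩ }
  supp U f hf := F.supp U f hf.1
  res U V h f hf := by
    refine ⟨F.res U V h f hf.1, ?_⟩
    rw [keep_comp_keep hφ, ← keep_keep q h]
    exact G.res U V h _ hf.2
  loc U f hf h := by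
    refine ⟨F.loc U f hf (fun x hx => ?_), G.loc U _ (fun k hk => keep_apply_neg q _ hk)
      (fun x hx => ?_)⟩
    · obtain ⟨V, hxV, hVU, hV⟩ := h x hx
      exact ⟨V, hxV, hVU, hV.1⟩
    · obtain ⟨V, hxV, hVU, hV⟩ := h x hx
      refine ⟨V, hxV, hVU, ?_⟩
      rw [keep_keep q hVU, ← keep_comp_keep hφ]
      exact hV.2

lemma FSh.mem_comapInf (F : FSh p A) (G : FSh q B) (φ : (Π₀ i, A i) →+ (Π₀ k, B k))
    (hφ : IsLocalHom p q φ) {U : Opens X} {f : Π₀ i, A i} :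
    f ∈ (F.comapInf G φ hφ).sec U ↔ f ∈ F.sec U ∧ keep q B U (φ f) ∈ G.sec U := Iff.rfl

lemma FSh.mem_stk_comapInf (F : FSh p A) (G : FSh q B) (φ : (Π₀ i, A i) →+ (Π₀ k, B k))
    (hφ : IsLocalHom p q φ) {x : X} {f : Π₀ i, A i} :
    f ∈ (F.comapInf G φ hφ).stk x ↔ f ∈ F.stk x ∧ gen q B x (φ f) ∈ G.stk x := by
  constructor
  · rintro ⟨U, hx, g, hg, rfl⟩
    refine ⟨F.gen_mem_stk hx hg.1, ?_⟩
    rw [gen_comp_gen hφ, ← gen_keep q hx]
    exact G.gen_mem_stk hx hg.2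
  · rintro ⟨⟨U, hx, g, hg, rfl⟩, h2⟩
    rw [gen_comp_gen hφ] at h2
    obtain ⟨V, hxV, hVU, hV⟩ := G.exists_keep_mem hx h2
    refine ⟨V, hxV, keep p A V g, ⟨F.res U V hVU g hg, ?_⟩, gen_keep p hxV g⟩
    rw [keep_comp_keep hφ]
    exact hV

end

end Pool.Agent.H84.KEW
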