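import Pool.Agent.H84.KEW.Dim

/-! The vanishing theorem VAN for quotients of sheaves of families. -/

open CategoryTheory TopologicalSpace Opposite Abelian

universe u

namespace Pool.Agent.H84.KEW

noncomputable section

variable {X : TopCat.{u}} [NoetherianSpace X] {ι : Type u} {p : ι → X} {A : ι → Type u}
  [∀ i, AddCommGroup (A i)]

omit [NoetherianSpace X] in
lemma FSh.ext_sec {F G : FSh p A} (h : ∀ U, F.sec U = G.sec U) : F = G := by
  obtain ⟨s, _, _, _⟩ := F
  obtain ⟨t, _, _, _⟩ := G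
  have : s = t := funext h
  subst this
  rfl

omit [NoetherianSpace X] in
lemma germ_app_res {G M : Shf X} (π : G ⟶ M) {U V : Opens X} (hV : V ≤ U) {x : X} (hx : x ∈ V)
    (a : G.obj.obj (op U)) : (prs M).germ U x (hV hx) (π.hom.app (op U) a) =
      (prs M).germ V x hx (π.hom.app (op V) (G.obj.map (homOfLE hV).op a)) := by
  rw [map_app]
  exact (TopCat.Presheaf.germ_res_apply (prs M) (homOfLE hV) x hx _).symm

section quot

variable {F G : FSh p A} (hFG : ∀ U, F.sec U ≤ G.sec U) {M : Shf X} (π : G.sheaf ⟶ M)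
  (hπ : F.incl G hFG ≫ π = 0)

include hπ in
lemma germ_quot {U : Opens X} (a : G.sec U) {x : X} (hx : x ∈ U)
    (h : gen p A x a.1 ∈ F.stk x) : (prs M).germ U x hx (π.hom.app (op U) a) = 0 := by
  obtain ⟨V, hxV, hVU, hV⟩ := F.exists_keep_mem hx h
  refine germ_eq_zero hVU hxV ?_
  have e := map_app π hVU (show G.sheaf.obj.obj (op U) from a)
  exact e.symm.trans (comp_app_eq_zero hπ (show F.sheaf.obj.obj (op V) from
    (⟨keep p A V a.1, hV⟩ : F.sec V)))

include hπ in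
lemma zeroAt_quot [Epi π] {x : X} (h : G.stk x ≤ F.stk x) : ZeroAt M x := by
  intro U hx c
  obtain ⟨V, hV, hxV, a, ha⟩ := locSurj_of_epi π c hx
  have h1 := germ_quot hFG π hπ a hxV (h (G.gen_mem_stk hxV (show G.sec V from a).2))
  rw [ha] at h1
  obtain ⟨W, hW, hxW, h0⟩ := exists_res_eq_zero hxV h1
  refine ⟨W, hW.trans hV, hxW, ?_⟩
  rw [← h0, ← ConcreteCategory.comp_apply, ← Functor.map_comp]
  rfl

end quot

variable {κ : Type u} {q : κ → X} {B : κ → Type u} [∀ k, AddCommGroup (B k)]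

/-- VAN (frame, section 3). Here `s = k + 2`, `S` and `S'` are the conditions `P^j`, `P^(j+1)`,
`φ` is the differential, `F` is the subsheaf of the families which satisfy all conditions. -/
theorem van_aux [QuasiSober X] (hF : T_FLASQUE.{u}) {δ : X → ℕ}
    (hδ : ∀ x y : X, x ⤳ y → x ≠ y → δ y < δ x) (k : ℕ)
    (S : X → AddSubgroup (Π₀ i, A i)) (S' : X → AddSubgroup (Π₀ i, B i))
    (φ : (Π₀ i, A i) →+ (Π₀ k, B k)) (hφ : IsLocalHom p q φ)
    (hfin : ∀ f : Π₀ i, A i, {y | gen p A y f ∉ S y}.Finite)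
    (hfin' : ∀ f : Π₀ i, B i, {y | gen q B y f ∉ S' y}.Finite)
    (honto : ∀ (x y0 : X), y0 ⤳ x → ∀ c : Π₀ i, A i, ∃ c' : Π₀ i, A i,
      gen p A y0 (c' - c) ∈ S y0 ∧ ∀ y, y ⤳ x → y ≠ y0 → gen p A y c' ∈ S y)
    (hV1 : ∀ y : X, k + 2 ≤ δ y → ∀ a : Π₀ i, A i, (∀ z, z ⤳ y → gen p A z a ∈ S z) →
      gen q B y (φ a) ∈ S' y)
    (hV2 : ∀ (x y0 : X), y0 ⤳ x → δ y0 = k + 1 → ∀ a : Π₀ i, A i,
      (∀ z, z ⤳ y0 → gen p A z a ∈ S z) → ∃ a' : Π₀ i, A i,
      (∀ z, z ⤳ x → gen p A z a' ∈ S z) ∧ gen q B y0 (φ (a' - a)) ∈ S' y0 ∧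
      ∀ y, y ⤳ x → δ y = k + 1 → y ≠ y0 → gen q B y (φ a') ∈ S' y)
    (F : FSh p A) (hFsec : ∀ U f, f ∈ F.sec U ↔ f ∈ (stalkwise p A S).sec U ∧
      ∀ x ∈ U, gen q B x (φ f) ∈ S' x) (hFE : ∀ U, F.sec U ≤ (E p A).sec U) :
    Subsingleton (Sheaf.H F.sheaf (k + 2)) ∧
    Subsingleton (Sheaf.H (Limits.cokernel (F.incl (E p A) hFE)) (k + 1)) := by
  set G : FSh p A := stalkwise p A S with hG
  have hFdef : F = G.comapInf (stalkwise q B S') φ hφ := by
    refine FSh.ext_sec (fun U => ?_)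
    ext f
    rw [hFsec U f, FSh.mem_comapInf]
    refine and_congr_right (fun _ => ⟨fun h => ⟨fun k hk => keep_apply_neg q _ hk, fun x hx => ?_⟩,
      fun h x hx => ?_⟩)
    · rw [gen_keep q hx]
      exact h x hx
    · have h1 := h.2 x hx
      rwa [gen_keep q hx] at h1
  have hFG : ∀ U, F.sec U ≤ G.sec U := fun U f hf => ((hFsec U f).mp hf).1
  have hstkG : ∀ {x : X} {f : Π₀ i, A i}, f ∈ G.stk x ↔
      gen p A x f = f ∧ ∀ y, y ⤳ x → gen p A y f ∈ S y := fun {x f} => mem_stk_stalkwise hfin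
  have hstkF : ∀ {x : X} {f : Π₀ i, A i}, f ∈ F.stk x ↔ f ∈ G.stk x ∧
      ∀ y, y ⤳ x → gen q B y (φ f) ∈ S' y := by
    intro x f
    rw [hFdef, FSh.mem_stk_comapInf, mem_stk_stalkwise hfin', gen_gen q (specializes_refl x)]
    refine and_congr_right (fun _ => ⟨fun h y hy => ?_, fun h => ⟨rfl, fun y hy => ?_⟩⟩)
    · have := h.2 y hy
      rwa [gen_gen q hy] at this
    · rw [gen_gen q hy]
      exact h y hy
  -- the quotient `A / U`
  let M : Shf X := Limits.cokernel (F.incl G hFG)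
  let π : G.sheaf ⟶ M := Limits.cokernel.π (F.incl G hFG)
  have hπ : F.incl G hFG ≫ π = 0 := Limits.cokernel.condition _
  have hmono : Mono (F.incl G hFG) := mono_of_injective _ (fun U f hf =>
    Subtype.ext (congrArg Subtype.val hf :))
  have hM1 : Subsingleton (Sheaf.H M (k + 1)) := by
    refine dim_plus hF hδ (k + 1) M ?_ ?_ k le_rfl
    · intro x hx
      refine zeroAt_quot hFG π hπ ?_
      intro a ha
      rw [hstkF]
      refine ⟨ha, fun y hy => ?_⟩
      refine hV1 y ?_ a (fun z hz => (hstkG.mp ha).2 z (hz.trans hy))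
      by_cases hyx : y = x
      · rw [hyx]; omega
      · have := hδ y x hy hyx
        omega
    · intro x y0 hy0 hδ0 t
      obtain ⟨U, hyU, c, rfl⟩ := TopCat.Presheaf.exists_germ_eq (prs M) t
      obtain ⟨V, hV, hyV, a, ha⟩ := locSurj_of_epi π c hyU
      let a0 : G.sec V := a
      have ha0 : ∀ z, z ⤳ y0 → gen p A z a0.1 ∈ S z := fun z hz =>
        a0.2.2 z (hz.mem_open V.2 hyV)
      obtain ⟨a', h1, h2, h3⟩ := hV2 x y0 hy0 hδ0 a0.1 ha0
      have h4 : gen p A x a' ∈ G.stk x := by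
        rw [hstkG]
        refine ⟨gen_gen p (specializes_refl x) a', fun y hy => ?_⟩
        rw [gen_gen p hy]
        exact h1 y hy
      obtain ⟨W, hxW, _, hW⟩ := G.exists_keep_mem (U := ⊤) (x := x) trivial h4
      -- larger dimension: automatic
      have hauto : ∀ (y : X) (b : Π₀ i, A i), δ y = k + 1 → (∀ z, z ⤳ y → gen p A z b ∈ S z) →
          gen q B y (φ b) ∈ S' y → gen p A y b ∈ F.stk y := by
        intro y b hy hb hb'
        rw [hstkF, hstkG]
        refine ⟨⟨gen_gen p (specializes_refl y) b, fun z hz => ?_⟩, fun z hz => ?_⟩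
        · rw [gen_gen p hz]
          exact hb z hz
        · have e1 : gen q B z (φ (gen p A y b)) = gen q B z (φ b) := by
            rw [← gen_comp_gen hφ z (gen p A y b), gen_gen p hz, gen_comp_gen hφ]
          rw [e1]
          by_cases hzy : z = y
          · rw [hzy]; exact hb'
          · have := hδ z y hz hzy
            exact hV1 z (by omega) b (fun w hw => hb w (hw.trans hz))
      refine ⟨W, hxW, π.hom.app (op W) (⟨keep p A W a', hW⟩ : G.sec W), ?_, ?_⟩
      · intro hyW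
        have hyWV : y0 ∈ W ⊓ V := ⟨hyW, hyV⟩
        have e0 : (prs M).germ U y0 hyU c = (prs M).germ V y0 hyV (π.hom.app (op V) a) := by
          rw [ha]
          exact (TopCat.Presheaf.germ_res_apply (prs M) (homOfLE hV) y0 hyV c).symm
        have e1 := e0.trans (germ_app_res π (inf_le_right : W ⊓ V ≤ V) hyWV a)
        have e2 := germ_app_res π (inf_le_left : W ⊓ V ≤ W) hyWV
          (show G.sheaf.obj.obj (op W) from (⟨keep p A W a', hW⟩ : G.sec W))
        refine e2.trans (Eq.trans ?_ e1.symm)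
        rw [← sub_eq_zero, ← map_sub, ← map_sub]
        let b : G.sec (W ⊓ V) := (G.resHom inf_le_left ⟨keep p A W a', hW⟩) -
          (G.resHom inf_le_right a0)
        refine germ_quot hFG π hπ b hyWV ?_
        have e3 : gen p A y0 b.1 = gen p A y0 (a' - a0.1) := by
          change gen p A y0 (keep p A (W ⊓ V) (keep p A W a') - keep p A (W ⊓ V) a0.1) = _
          rw [keep_keep p inf_le_left, ← map_sub, gen_keep p hyWV]
        rw [e3]
        refine hauto y0 _ hδ0 (fun z hz => ?_) h2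
        rw [map_sub]
        exact sub_mem (h1 z (hz.trans hy0)) (ha0 z hz)
      · intro y hy hδy hyy0
        refine germ_quot hFG π hπ _ _ ?_
        change gen p A y (keep p A W a') ∈ F.stk y
        rw [gen_keep p (hy.mem_open W.2 hxW)]
        exact hauto y a' hδy (fun z hz => h1 z (hz.trans hy)) (h3 y hy hδy hyy0)
  have hS1 : (ShortComplex.mk (F.incl G hFG) π hπ).ShortExact :=
    ShortComplex.ShortExact.mk' (ShortComplex.exact_cokernel _) hmono
      (by dsimp [π]; infer_instance)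
  have hU : Subsingleton (Sheaf.H F.sheaf (k + 2)) :=
    H_left hS1 (n := k + 1) hM1 (flq S hF hfin honto k)
  refine ⟨hU, ?_⟩
  have hmono' : Mono (F.incl (E p A) hFE) := mono_of_injective _
    (fun U f hf => Subtype.ext (congrArg Subtype.val hf :))
  have hS2 : (ShortComplex.mk (F.incl (E p A) hFE) (Limits.cokernel.π _)
      (Limits.cokernel.condition _)).ShortExact :=
    ShortComplex.ShortExact.mk' (ShortComplex.exact_cokernel _) hmono'
      (by dsimp; infer_instance)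
  exact H_right hS2 (n := k + 1) (hF X _ k (isFlasque_E _ _)) hU

/-- VAN for the subsheaf `A^j ∩ d⁻¹ A^(j+1)`. -/
theorem van [QuasiSober X] (hF : T_FLASQUE.{u}) {δ : X → ℕ}
    (hδ : ∀ x y : X, x ⤳ y → x ≠ y → δ y < δ x) (k : ℕ)
    (S : X → AddSubgroup (Π₀ i, A i)) (S' : X → AddSubgroup (Π₀ i, B i))
    (φ : (Π₀ i, A i) →+ (Π₀ k, B k)) (hφ : IsLocalHom p q φ)
    (hfin : ∀ f : Π₀ i, A i, {y | gen p A y f ∉ S y}.Finite)
    (hfin' : ∀ f : Π₀ i, B i, {y | gen q B y f ∉ S' y}.Finite)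
    (honto : ∀ (x y0 : X), y0 ⤳ x → ∀ c : Π₀ i, A i, ∃ c' : Π₀ i, A i,
      gen p A y0 (c' - c) ∈ S y0 ∧ ∀ y, y ⤳ x → y ≠ y0 → gen p A y c' ∈ S y)
    (hV1 : ∀ y : X, k + 2 ≤ δ y → ∀ a : Π₀ i, A i, (∀ z, z ⤳ y → gen p A z a ∈ S z) →
      gen q B y (φ a) ∈ S' y)
    (hV2 : ∀ (x y0 : X), y0 ⤳ x → δ y0 = k + 1 → ∀ a : Π₀ i, A i,
      (∀ z, z ⤳ y0 → gen p A z a ∈ S z) → ∃ a' : Π₀ i, A i,
      (∀ z, z ⤳ x → gen p A z a' ∈ S z) ∧ gen q B y0 (φ (a' - a)) ∈ S' y0 ∧
      ∀ y, y ⤳ x → δ y = k + 1 → y ≠ y0 → gen q B y (φ a') ∈ S' y) :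
    Subsingleton (Sheaf.H (((stalkwise p A S).comapInf (stalkwise q B S') φ hφ).sheaf) (k + 2)) ∧
    Subsingleton (Sheaf.H (Limits.cokernel (((stalkwise p A S).comapInf
      (stalkwise q B S') φ hφ).incl (E p A) (fun _ _ hf => hf.1.1))) (k + 1)) := by
  refine van_aux hF hδ k S S' φ hφ hfin hfin' honto hV1 hV2 _ (fun U f => ?_) _
  rw [FSh.mem_comapInf]
  refine and_congr_right (fun _ => ⟨fun h x hx => ?_, fun h => ⟨fun k hk => keep_apply_neg q _ hk,
    fun x hx => ?_⟩⟩)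
  · have h1 := h.2 x hx
    rwa [gen_keep q hx] at h1
  · rw [gen_keep q hx]
    exact h x hx

end

end Pool.Agent.H84.KEW
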