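import Pool.Agent.H84.KEW.Van
import Pool.Agent.H15.KEW.Van

/-! `S_VAN` of helper15, with finiteness of both systems of conditions. -/

open CategoryTheory TopologicalSpace Opposite Abelian Pool.Agent.H15.KEW

universe u

namespace Pool.Agent.H84.KEW

theorem s_van (hF : T_FLASQUE.{u}) (X : TopCat.{u}) [NoetherianSpace X] [QuasiSober X]
    (ι κ : Type u) (p : ι → X) (q : κ → X) (A : ι → Type u) (B : κ → Type u)
    [∀ i, AddCommGroup (A i)] [∀ k, AddCommGroup (B k)]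
    (φ : (Π₀ i, A i) →+ (Π₀ k, B k)) (hφ : IsLocalHom p q φ)
    (P : X → AddSubgroup (Π₀ i, A i)) (P' : X → AddSubgroup (Π₀ k, B k)) (δ : X → ℕ) (m : ℕ)
    (hm : 1 ≤ m) (hδ : ∀ x y : X, x ⤳ y → x ≠ y → δ y < δ x)
    (hfin : ∀ f : Π₀ i, A i, {x : X | gen p A x f ∉ P x}.Finite)
    (hfin' : ∀ f : Π₀ i, B i, {x : X | gen q B x f ∉ P' x}.Finite)
    (hind : ∀ (x y₀ : X) (_ : y₀ ⤳ x) (c : Π₀ i, A i), ∃ c' : Π₀ i, A i,
      gen p A y₀ (c' - c) ∈ P y₀ ∧ ∀ y : X, y ⤳ x → y ≠ y₀ → gen p A y c' ∈ P y)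
    (hV1 : ∀ (y : X) (a : Π₀ i, A i), m < δ y → (∀ y' : X, y' ⤳ y → gen p A y' a ∈ P y') →
      gen q B y (φ (gen p A y a)) ∈ P' y)
    (hV2 : ∀ (x y₀ : X) (_ : y₀ ⤳ x) (a : Π₀ i, A i), δ y₀ = m →
      (∀ y : X, y ⤳ y₀ → gen p A y a ∈ P y) →
      ∃ a' : Π₀ i, A i, (∀ y : X, y ⤳ x → gen p A y a' ∈ P y) ∧
        (∀ y : X, y ⤳ y₀ → gen q B y (φ (a' - a)) ∈ P' y) ∧
        ∀ y₁ : X, y₁ ⤳ x → δ y₁ = m → y₁ ≠ y₀ → ∀ y : X, y ⤳ y₁ → gen q B y (φ a') ∈ P' y)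
    (hle : ∀ U, (stalkwise p A (subP (p := p) (q := q) φ P P')).sec U ≤ (E p A).sec U) :
    Subsingleton (Sheaf.H (Limits.cokernel
      (FSh.incl (stalkwise p A (subP (p := p) (q := q) φ P P')) (E p A) hle)) m) := by
  obtain ⟨k, rfl⟩ : ∃ k, m = k + 1 := ⟨m - 1, by omega⟩
  refine (van_aux hF hδ k P P' φ hφ hfin hfin' (fun x y0 hy c => hind x y0 hy c)
    (fun y hy a ha => ?_) (fun x y0 hy hδ0 a ha => ?_) _ (fun U f => ?_) hle).2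
  · have h1 := hV1 y a (by omega) ha
    rwa [gen_comp_gen hφ] at h1
  · obtain ⟨a', h1, h2, h3⟩ := hV2 x y0 hy a hδ0 ha
    exact ⟨a', h1, h2 y0 (specializes_refl _), fun y hyx hδy hne => h3 y hyx hδy hne y
      (specializes_refl _)⟩
  · change (_ ∧ ∀ x ∈ U, gen p A x f ∈ P x ⊓ (P' x).comap ((gen q B x).comp φ)) ↔
      (_ ∧ ∀ x ∈ U, gen p A x f ∈ P x) ∧ _
    constructor
    · rintro ⟨h1, h2⟩
      refine ⟨⟨h1, fun x hx => (h2 x hx).1⟩, fun x hx => ?_⟩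
      have h3 : gen q B x (φ (gen p A x f)) ∈ P' x := (h2 x hx).2
      rwa [gen_comp_gen hφ] at h3
    · rintro ⟨⟨h1, h2⟩, h3⟩
      refine ⟨h1, fun x hx => ⟨h2 x hx, ?_⟩⟩
      change gen q B x (φ (gen p A x f)) ∈ P' x
      rw [gen_comp_gen hφ]
      exact h3 x hx

end Pool.Agent.H84.KEW
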